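import Pool.Agent.ANF.Heat.Ball
import Pool.Agent.ANM.GeoSum

/-!
ANF heat part (helper43), module 6: path bound on the whole torus and the Poincare inequality
with exponential weights (all of the torus, no condition on the radius).
-/

open scoped BigOperators
open Finset

namespace Pool.Agent.ANF.Heat

open Pool.Agent.ANP Pool.Agent.ANM

variable {d L : ℕ}

/-- The hybrid point of the torus: coordinates below `k` from `c`, the others from `x`. -/
def hybT (k : ℕ) (x c : Fin d → ZMod L) : Fin d → ZMod L := fun i => if (i : ℕ) < k then c i else x i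

theorem hybT_zero (x c : Fin d → ZMod L) : hybT 0 x c = x := by
  funext i; simp [hybT]

theorem hybT_last (x c : Fin d → ZMod L) : hybT d x c = c := by
  funext i; simp [hybT]

theorem hybT_succ (k : Fin d) (x c : Fin d → ZMod L) :
    hybT ((k : ℕ) + 1) x c = Function.update (hybT k x c) k (c k) := by
  funext i
  by_cases hi : i = k
  · subst hi; simp [hybT]
  · rw [Function.update_of_ne hi]
    unfold hybT
    have : ((i : ℕ) < (k : ℕ) + 1) ↔ ((i : ℕ) < k) := by
      constructor
      · intro h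
        have hne : (i : ℕ) ≠ k := fun e => hi (Fin.ext e)
        omega
      · omega
    simp only [this]

/-- One segment of the path from `x` to `c`. -/
theorem seg_sq [NeZero L] (a : (Fin d → ZMod L) → ℝ) (x c : Fin d → ZMod L) (k : Fin d)
    (D : ℕ) (hD : dT x c ≤ D) (hDL : 2 * D ≤ L) :
    (a (hybT k x c) - a (hybT ((k : ℕ) + 1) x c)) ^ 2 ≤
      (2 * (D : ℝ) + 1) * ∑ z ∈ ballF c D, (a (z + Pi.single k 1) - a z) ^ 2 := by
  classical
  set h := hybT (k : ℕ) x c with hh
  set b : ℤ → ℝ := fun t => a (Function.update h k (c k + (t : ZMod L))) with hb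
  set m : ℤ := (x k - c k).valMinAbs with hm
  have hDj : ∀ j, (x j - c j).valMinAbs.natAbs ≤ D := (dT_le_iff x c D).1 hD
  have hmD : m.natAbs ≤ D := hDj k
  have hb0 : b 0 = a (hybT ((k : ℕ) + 1) x c) := by
    rw [hybT_succ, hb]
    simp [hh]
  have hbm : b m = a h := by
    have e1 : c k + ((m : ℤ) : ZMod L) = h k := by
      rw [hm, ZMod.coe_valMinAbs, hh]
      simp [hybT]
    show a (Function.update h k (c k + (m : ZMod L))) = a h
    rw [e1, Function.update_eq_self]
  have h1 := line_sq b (-(D:ℤ)) ((D:ℤ) + 1) m 0 ⟨by omega, by omega⟩ ⟨by omega, by omega⟩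
  rw [hbm, hb0] at h1
  refine h1.trans ?_
  have e2 : (((D:ℤ) + 1 - -(D:ℤ) : ℤ) : ℝ) = 2 * (D:ℝ) + 1 := by push_cast; ring
  rw [e2]
  refine mul_le_mul_of_nonneg_left ?_ (by positivity)
  -- the points of the segment
  have hstep : ∀ u : ℤ, b (u + 1) = a (Function.update h k (c k + (u : ZMod L)) + Pi.single k 1) := by
    intro u
    show a (Function.update h k (c k + ((u + 1 : ℤ) : ZMod L))) = _
    congr 1
    funext i
    by_cases hi : i = k
    · subst hi; simp [add_assoc]
    · simp [Function.update_of_ne hi, Pi.single_eq_of_ne hi]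
  calc ∑ u ∈ Finset.Ico (-(D:ℤ)) ((D:ℤ) + 1), (if u + 1 < (D:ℤ) + 1 then (b (u + 1) - b u) ^ 2
          else 0)
      = ∑ u ∈ Finset.Ico (-(D:ℤ)) (D:ℤ), (b (u + 1) - b u) ^ 2 := by
        rw [← Finset.sum_filter]
        refine Finset.sum_congr ?_ fun _ _ => rfl
        ext u
        simp only [Finset.mem_filter, Finset.mem_Ico]
        omega
    _ = ∑ z ∈ (Finset.Ico (-(D:ℤ)) (D:ℤ)).image
          (fun u : ℤ => Function.update h k (c k + (u : ZMod L))),
          (a (z + Pi.single k 1) - a z) ^ 2 := by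
        rw [Finset.sum_image]
        · exact Finset.sum_congr rfl fun u _ => by rw [hstep]
        · intro u hu u' hu' huu
          simp only [Finset.coe_Ico, Set.mem_Ico] at hu hu'
          have e3 := congrFun huu k
          simp only [Function.update_self] at e3
          have e4 : ((u : ℤ) : ZMod L) = ((u' : ℤ) : ZMod L) := add_left_cancel e3
          rw [ZMod.intCast_eq_intCast_iff_dvd_sub] at e4
          by_contra hne
          have h5 := Int.le_of_dvd (a := (L:ℤ)) (b := |u' - u|) (by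
            have : u' - u ≠ 0 := by omega
            positivity) ((dvd_abs _ _).2 e4)
          have h6 : |u' - u| < 2 * D := by
            rw [abs_lt]; constructor <;> omega
          omega
    _ ≤ ∑ z ∈ ballF c D, (a (z + Pi.single k 1) - a z) ^ 2 := by
        refine Finset.sum_le_sum_of_subset_of_nonneg ?_ fun _ _ _ => by positivity
        intro z hz
        rw [Finset.mem_image] at hz
        obtain ⟨u, hu, rfl⟩ := hz
        rw [Finset.mem_Ico] at hu
        rw [mem_ballF, dT_le_iff]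
        intro i
        by_cases hi : i = k
        · subst hi
          rw [Function.update_self, add_sub_cancel_left]
          exact (vma_le_of_cast _ u rfl).trans (by omega)
        · rw [Function.update_of_ne hi]
          by_cases h7 : (i : ℕ) < (k : ℕ)
          · have : h i = c i := by rw [hh]; simp [hybT, h7]
            rw [this]; simp
          · have : h i = x i := by rw [hh]; simp [hybT, h7]
            rw [this]; exact hDj i

theorem dT_le_half [NeZero L] (x c : Fin d → ZMod L) : 2 * dT x c ≤ L := by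
  have h : dT x c ≤ L / 2 := by
    rw [dT_le_iff]
    intro j
    exact ZMod.natAbs_valMinAbs_le _
  omega

/-- **Path bound** on the whole torus. -/
theorem path_sq [NeZero L] (a : (Fin d → ZMod L) → ℝ) (x c : Fin d → ZMod L) :
    (a x - a c) ^ 2 ≤ d * (2 * (dT x c : ℝ) + 1) *
      ∑ i : Fin d, ∑ z ∈ ballF c (dT x c), (a (z + Pi.single i 1) - a z) ^ 2 := by
  have t1 : ∑ k : Fin d, (a (hybT k x c) - a (hybT ((k : ℕ) + 1) x c)) = a x - a c := by
    rw [Fin.sum_univ_eq_sum_range (fun k => a (hybT k x c) - a (hybT (k+1) x c)) d,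
      Finset.sum_range_sub', hybT_zero, hybT_last]
  have h1 := sq_sum_le_card_mul_sum_sq (s := (Finset.univ : Finset (Fin d)))
      (f := fun k : Fin d => a (hybT k x c) - a (hybT ((k : ℕ) + 1) x c))
  rw [t1] at h1
  simp only [Finset.card_univ, Fintype.card_fin] at h1
  refine h1.trans ?_
  rw [mul_assoc]
  refine mul_le_mul_of_nonneg_left ?_ (by positivity)
  rw [Finset.mul_sum]
  exact Finset.sum_le_sum fun k _ => seg_sq a x c k (dT x c) le_rfl (dT_le_half x c)

theorem ballF_mono [NeZero L] (c : Fin d → ZMod L) {r R : ℕ} (h : r ≤ R) :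
    ballF c r ⊆ ballF c R := fun x hx => mem_ballF.2 ((mem_ballF.1 hx).trans h)

/-- Distance of the centre value to the average over a ball. -/
theorem ctr_sq [NeZero L] (a : (Fin d → ZMod L) → ℝ) (c : Fin d → ZMod L) (R : ℕ) :
    (a c - avT (ballF c R) a) ^ 2 ≤ d * (2 * (R : ℝ) + 1) *
      ∑ i : Fin d, ∑ z ∈ ballF c R, (a (z + Pi.single i 1) - a z) ^ 2 := by
  have hne : (ballF c R).Nonempty := ⟨c, by rw [mem_ballF, (nmet_dT (d := d) (L := L)).self]; omega⟩
  have hc : (0:ℝ) < #(ballF c R) := by exact_mod_cast hne.card_pos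
  have e1 : a c - avT (ballF c R) a = (∑ y ∈ ballF c R, (a c - a y)) / #(ballF c R) := by
    rw [Finset.sum_sub_distrib]
    simp only [Finset.sum_const, nsmul_eq_mul]
    unfold avT
    field_simp
  have h2 : (∑ y ∈ ballF c R, (a c - a y)) ^ 2 ≤ #(ballF c R) * ∑ y ∈ ballF c R, (a c - a y) ^ 2 :=
    sq_sum_le_card_mul_sum_sq
  set T := ∑ i : Fin d, ∑ z ∈ ballF c R, (a (z + Pi.single i 1) - a z) ^ 2 with hT
  have hT0 : 0 ≤ T := Finset.sum_nonneg fun _ _ => Finset.sum_nonneg fun _ _ => by positivity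
  have h3 : ∀ y ∈ ballF c R, (a c - a y) ^ 2 ≤ d * (2 * (R : ℝ) + 1) * T := by
    intro y hy
    have h4 := mem_ballF.1 hy
    have h5 := path_sq a y c
    have h6 : ∑ i : Fin d, ∑ z ∈ ballF c (dT y c), (a (z + Pi.single i 1) - a z) ^ 2 ≤ T :=
      Finset.sum_le_sum fun i _ => Finset.sum_le_sum_of_subset_of_nonneg (ballF_mono c h4)
        fun _ _ _ => by positivity
    have h7 : (dT y c : ℝ) ≤ R := by exact_mod_cast h4
    have h8 : (a c - a y) ^ 2 = (a y - a c) ^ 2 := by ring
    rw [h8]
    refine h5.trans (mul_le_mul ?_ h6 (Finset.sum_nonneg fun _ _ =>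
      Finset.sum_nonneg fun _ _ => by positivity) (by positivity))
    exact mul_le_mul_of_nonneg_left (by linarith) (by positivity)
  have h9 : ∑ y ∈ ballF c R, (a c - a y) ^ 2 ≤ #(ballF c R) * (d * (2 * (R : ℝ) + 1) * T) := by
    refine (Finset.sum_le_sum h3).trans (le_of_eq ?_)
    rw [Finset.sum_const, nsmul_eq_mul]
  rw [e1, div_pow, div_le_iff₀ (by positivity)]
  calc (∑ y ∈ ballF c R, (a c - a y)) ^ 2
      ≤ #(ballF c R) * (#(ballF c R) * (d * (2 * (R : ℝ) + 1) * T)) :=
        h2.trans (mul_le_mul_of_nonneg_left h9 hc.le)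
    _ = _ := by ring

theorem sum_exp_dT [NeZero L] (c : Fin d → ZMod L) {mu : ℝ} (h0 : 0 < mu) (h1 : mu ≤ 1) :
    ∑ x : Fin d → ZMod L, Real.exp (-(mu * dT x c)) ≤ sumC d 0 mu := by
  have h := sum_exp_le (X := Fin d → ZMod L) (dT (d := d) (L := L)) (fun y => dT c y) c d 0
    (fun r => card_ball c r) (fun y => by omega) h0 h1
  refine le_trans (le_of_eq (Finset.sum_congr rfl fun x _ => ?_)) h
  rw [(nmet_dT (d := d) (L := L)).symm x c]

/-- the weight of the edges in `wpoin` -/
noncomputable def tlw [NeZero L] (mu : ℝ) (R : ℕ) (c z : Fin d → ZMod L) : ℝ :=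
  16 * d / mu * sumC d 0 (mu / 4) * Real.exp (-(mu / 2 * dT z c)) +
    (if dT z c ≤ R then 2 * d * (2 * (R : ℝ) + 1) * sumC d 0 mu else 0)

theorem sumC_nonneg (m c : ℕ) {mu : ℝ} (h : 0 < mu) : 0 ≤ sumC m c mu := by
  unfold sumC; positivity

/-- **Poincare inequality with exponential weights** on the whole torus. -/
theorem wpoin [NeZero L] (c : Fin d → ZMod L) (R : ℕ) {mu : ℝ} (h0 : 0 < mu) (h1 : mu ≤ 1)
    (a : (Fin d → ZMod L) → ℝ) :
    ∑ x, Real.exp (-(mu * dT x c)) * (a x - avT (ballF c R) a) ^ 2 ≤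
      ∑ i : Fin d, ∑ z, tlw mu R c z * (a (z + Pi.single i 1) - a z) ^ 2 := by
  classical
  set r : (Fin d → ZMod L) → ℝ := fun x => Real.exp (-(mu * dT x c)) with hr
  set F : Fin d → (Fin d → ZMod L) → ℝ := fun i z => (a (z + Pi.single i 1) - a z) ^ 2 with hF
  have hF0 : ∀ i z, 0 ≤ F i z := fun i z => sq_nonneg _
  have hr0 : ∀ x, 0 ≤ r x := fun x => (Real.exp_pos _).le
  set T := ∑ i : Fin d, ∑ z ∈ ballF c R, F i z with hT
  have hT0 : 0 ≤ T := Finset.sum_nonneg fun i _ => Finset.sum_nonneg fun z _ => hF0 i z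
  -- pointwise
  have hp : ∀ x, r x * (a x - avT (ballF c R) a) ^ 2 ≤
      r x * (2 * (d * (2 * (dT x c : ℝ) + 1) * ∑ i : Fin d, ∑ z ∈ ballF c (dT x c), F i z)) +
      r x * (2 * (d * (2 * (R : ℝ) + 1) * T)) := by
    intro x
    rw [← mul_add]
    refine mul_le_mul_of_nonneg_left ?_ (hr0 x)
    have h2 := path_sq a x c
    have h3 := ctr_sq a c R
    have h4 : (a x - avT (ballF c R) a) ^ 2 ≤ 2 * (a x - a c) ^ 2 +
        2 * (a c - avT (ballF c R) a) ^ 2 := by
      nlinarith [sq_nonneg ((a x - a c) - (a c - avT (ballF c R) a))]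
    linarith
  have hs : ∑ x, r x ≤ sumC d 0 mu := sum_exp_dT c h0 h1
  -- second part
  have hB : ∑ x, r x * (2 * (d * (2 * (R : ℝ) + 1) * T)) ≤
      ∑ i : Fin d, ∑ z, (if dT z c ≤ R then 2 * d * (2 * (R : ℝ) + 1) * sumC d 0 mu else 0) *
        F i z := by
    rw [← Finset.sum_mul]
    have e1 : ∑ i : Fin d, ∑ z, (if dT z c ≤ R then 2 * d * (2 * (R : ℝ) + 1) * sumC d 0 mu
        else 0) * F i z = 2 * d * (2 * (R : ℝ) + 1) * sumC d 0 mu * T := by
      rw [hT, Finset.mul_sum]
      refine Finset.sum_congr rfl fun i _ => ?_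
      rw [Finset.mul_sum, ballF, Finset.sum_filter]
      refine Finset.sum_congr rfl fun z _ => ?_
      split_ifs <;> ring
    rw [e1]
    have h5 : 0 ≤ 2 * (d * (2 * (R : ℝ) + 1) * T) := by positivity
    have := mul_le_mul_of_nonneg_right hs h5
    linarith
  -- first part: exchange the sums
  have hA : ∑ x, r x * (2 * (d * (2 * (dT x c : ℝ) + 1) *
      ∑ i : Fin d, ∑ z ∈ ballF c (dT x c), F i z)) ≤
      ∑ i : Fin d, ∑ z, (16 * d / mu * sumC d 0 (mu / 4) * Real.exp (-(mu / 2 * dT z c))) *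
        F i z := by
    have e2 : ∀ x, r x * (2 * (d * (2 * (dT x c : ℝ) + 1) *
        ∑ i : Fin d, ∑ z ∈ ballF c (dT x c), F i z)) =
        ∑ i : Fin d, ∑ z, (if dT z c ≤ dT x c then
          2 * d * ((2 * (dT x c : ℝ) + 1) * r x) else 0) * F i z := by
      intro x
      rw [Finset.mul_sum, Finset.mul_sum, Finset.mul_sum]
      refine Finset.sum_congr rfl fun i _ => ?_
      rw [Finset.mul_sum, Finset.mul_sum, Finset.mul_sum, ballF, Finset.sum_filter]
      refine Finset.sum_congr rfl fun z _ => ?_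
      split_ifs <;> ring
    simp_rw [e2]
    rw [Finset.sum_comm]
    refine Finset.sum_le_sum fun i _ => ?_
    rw [Finset.sum_comm]
    refine Finset.sum_le_sum fun z _ => ?_
    rw [← Finset.sum_mul]
    refine mul_le_mul_of_nonneg_right ?_ (hF0 i z)
    have h6 : ∀ x, (if dT z c ≤ dT x c then 2 * d * ((2 * (dT x c : ℝ) + 1) * r x) else 0) ≤
        16 * d / mu * Real.exp (-(mu / 2 * dT z c)) * Real.exp (-(mu / 4 * dT x c)) := by
      intro x
      split_ifs with hz
      · have hz' : (dT z c : ℝ) ≤ dT x c := by exact_mod_cast hz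
        have hD0 : (0:ℝ) ≤ dT x c := by positivity
        have h7 : 2 * (dT x c : ℝ) + 1 ≤ 8 / mu * Real.exp (mu / 4 * dT x c) := by
          have h8 := Real.add_one_le_exp (mu / 4 * (dT x c : ℝ))
          have h9 : 8 / mu * (mu / 4 * (dT x c : ℝ) + 1) ≤ 8 / mu * Real.exp (mu / 4 * dT x c) :=
            mul_le_mul_of_nonneg_left h8 (by positivity)
          have h10 : 8 / mu * (mu / 4 * (dT x c : ℝ) + 1) = 2 * (dT x c : ℝ) + 8 / mu := by
            field_simp
            ring
          have h11 : (1:ℝ) ≤ 8 / mu := by rw [le_div_iff₀ h0]; linarith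
          linarith
        have h12 : Real.exp (mu / 4 * dT x c) * r x ≤
            Real.exp (-(mu / 2 * dT z c)) * Real.exp (-(mu / 4 * dT x c)) := by
          simp only [hr]
          rw [← Real.exp_add, ← Real.exp_add]
          refine Real.exp_le_exp.2 ?_
          nlinarith
        have h13 : (2 * (dT x c : ℝ) + 1) * r x ≤ 8 / mu *
            (Real.exp (-(mu / 2 * dT z c)) * Real.exp (-(mu / 4 * dT x c))) := by
          calc (2 * (dT x c : ℝ) + 1) * r x ≤ 8 / mu * Real.exp (mu / 4 * dT x c) * r x :=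
                mul_le_mul_of_nonneg_right h7 (hr0 x)
            _ = 8 / mu * (Real.exp (mu / 4 * dT x c) * r x) := by ring
            _ ≤ _ := mul_le_mul_of_nonneg_left h12 (by positivity)
        have h14 := mul_le_mul_of_nonneg_left h13 (by positivity : (0:ℝ) ≤ 2 * d)
        refine h14.trans (le_of_eq ?_)
        ring
      · positivity
    refine (Finset.sum_le_sum fun x _ => h6 x).trans ?_
    rw [← Finset.mul_sum]
    have h15 := sum_exp_dT (d := d) (L := L) c (mu := mu / 4) (by positivity) (by linarith)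
    calc 16 * (d:ℝ) / mu * Real.exp (-(mu / 2 * dT z c)) *
          ∑ x : Fin d → ZMod L, Real.exp (-(mu / 4 * dT x c))
        ≤ 16 * (d:ℝ) / mu * Real.exp (-(mu / 2 * dT z c)) * sumC d 0 (mu / 4) :=
          mul_le_mul_of_nonneg_left h15 (by positivity)
      _ = _ := by ring
  calc ∑ x, r x * (a x - avT (ballF c R) a) ^ 2
      ≤ ∑ x, (r x * (2 * (d * (2 * (dT x c : ℝ) + 1) *
          ∑ i : Fin d, ∑ z ∈ ballF c (dT x c), F i z)) +
        r x * (2 * (d * (2 * (R : ℝ) + 1) * T))) := Finset.sum_le_sum fun x _ => hp x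
    _ = ∑ x, r x * (2 * (d * (2 * (dT x c : ℝ) + 1) *
          ∑ i : Fin d, ∑ z ∈ ballF c (dT x c), F i z)) +
        ∑ x, r x * (2 * (d * (2 * (R : ℝ) + 1) * T)) := Finset.sum_add_distrib
    _ ≤ ∑ i : Fin d, ∑ z, (16 * d / mu * sumC d 0 (mu / 4) * Real.exp (-(mu / 2 * dT z c))) *
        F i z + ∑ i : Fin d, ∑ z, (if dT z c ≤ R then 2 * d * (2 * (R : ℝ) + 1) * sumC d 0 mu
          else 0) * F i z := add_le_add hA hB
    _ = ∑ i : Fin d, ∑ z, tlw mu R c z * F i z := by
        rw [← Finset.sum_add_distrib]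
        refine Finset.sum_congr rfl fun i _ => ?_
        rw [← Finset.sum_add_distrib]
        refine Finset.sum_congr rfl fun z _ => ?_
        unfold tlw
        ring

end Pool.Agent.ANF.Heat
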