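import Pool.Agent.ANF.Heat.Dec

/-!
ANF heat part (helper43), module 3: the discrete torus. Smoothing lemma, its form version
and the dual (low-high) version.
-/

open scoped BigOperators
open Finset

namespace Pool.Agent.ANF.Heat

variable {d L : ℕ}

/-- The Dirichlet form of the torus `(ℤ/L)^d`. -/
noncomputable def DT [NeZero L] (a : (Fin d → ZMod L) → ℝ) : ℝ :=
  ∑ i : Fin d, ∑ x : Fin d → ZMod L, (a (x + Pi.single i 1) - a x) ^ 2

/-- The covering map. -/
def pr (L : ℕ) (x : Fin d → ℤ) : Fin d → ZMod L := fun i => (x i : ZMod L)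

/-- The representative in the box `[0, L)^d`. -/
def rp [NeZero L] (x : Fin d → ZMod L) : Fin d → ℤ := fun i => ((x i).val : ℤ)

theorem pr_rp [NeZero L] (x : Fin d → ZMod L) : pr L (rp x) = x := by
  funext i
  simp [pr, rp]

theorem rp_mem [NeZero L] (x : Fin d → ZMod L) :
    rp x ∈ bx (fun _ : Fin d => (0:ℤ)) (fun _ => (L:ℤ)) := by
  rw [mem_bx]
  intro i
  simp only [rp]
  have := ZMod.val_lt (x i)
  omega

theorem rp_pr [NeZero L] {x : Fin d → ℤ} (hx : x ∈ bx (fun _ : Fin d => (0:ℤ)) (fun _ => (L:ℤ))) :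
    rp (pr L x) = x := by
  funext i
  have h := mem_bx.1 hx i
  simp only [rp, pr, ZMod.val_intCast]
  exact Int.emod_eq_of_lt h.1 h.2

theorem sum_torus [NeZero L] (f : (Fin d → ZMod L) → ℝ) :
    ∑ x : Fin d → ZMod L, f x =
      ∑ y ∈ bx (fun _ : Fin d => (0:ℤ)) (fun _ => (L:ℤ)), f (pr L y) := by
  refine Finset.sum_nbij' rp (pr L) (fun x _ => rp_mem x) (fun _ _ => Finset.mem_univ _)
    (fun x _ => pr_rp x) (fun x hx => rp_pr hx) (fun x _ => by rw [pr_rp])

theorem pr_add_single [NeZero L] (x : Fin d → ℤ) (i : Fin d) :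
    pr L (x + Pi.single i 1) = pr L x + Pi.single i 1 := by
  funext j
  by_cases h : j = i
  · subst h; simp [pr]
  · simp [pr, Pi.single_eq_of_ne h]

theorem DT_nonneg [NeZero L] (a : (Fin d → ZMod L) → ℝ) : 0 ≤ DT a :=
  Finset.sum_nonneg fun _ _ => Finset.sum_nonneg fun _ _ => by positivity

theorem en_le_DT [NeZero L] (a : (Fin d → ZMod L) → ℝ) :
    en (bx (fun _ : Fin d => (0:ℤ)) (fun _ => (L:ℤ))) (fun x => a (pr L x)) ≤ DT a := by
  unfold en DT
  refine Finset.sum_le_sum fun i _ => ?_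
  rw [sum_torus]
  refine Finset.sum_le_sum fun x _ => ?_
  show (if x + Pi.single i 1 ∈ bx (fun _ : Fin d => (0:ℤ)) (fun _ => (L:ℤ)) then
    (a (pr L (x + Pi.single i 1)) - a (pr L x)) ^ 2 else 0) ≤ _
  rw [pr_add_single]
  split_ifs
  · exact le_rfl
  · positivity

/-- **Smoothing lemma on the torus**, integer scale `r`. -/
theorem decT_nat [NeZero L] (hd : 3 ≤ d) (r : ℕ) (hr : 1 ≤ r) (hrL : r ≤ L)
    (a : (Fin d → ZMod L) → ℝ) :
    ∃ (c : ℝ) (v w : (Fin d → ZMod L) → ℝ), (∀ x, a x = c + v x + w x) ∧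
      ∑ x, w x ^ 2 ≤ 9 / 2 * d * (r : ℝ) ^ 2 * DT a ∧
      ∀ x, v x ^ 2 ≤ 288 * d * ((r : ℝ) ^ 2 / (r : ℝ) ^ d) * DT a := by
  -- choose the number of scales
  obtain ⟨k, hk1, hk2⟩ : ∃ k : ℕ, r * 2 ^ k ≤ L ∧ L < r * 2 ^ (k + 1) := by
    classical
    have hex : ∃ k : ℕ, L < r * 2 ^ (k + 1) := by
      refine ⟨L, ?_⟩
      have h1 : L < 2 ^ L := Nat.lt_two_pow_self
      have h2 : 2 ^ L ≤ 2 ^ (L + 1) := Nat.pow_le_pow_right (by norm_num) (by omega)
      nlinarith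
    refine ⟨Nat.find hex, ?_, Nat.find_spec hex⟩
    rcases Nat.eq_zero_or_pos (Nat.find hex) with h0 | h0
    · rw [h0]; simpa using hrL
    · have := Nat.find_min hex (m := Nat.find hex - 1) (by omega)
      have e : Nat.find hex - 1 + 1 = Nat.find hex := by omega
      rw [e] at this
      omega
  have hbox : ∀ i : Fin d, (r : ℤ) * 2 ^ k ≤ (fun _ : Fin d => (L:ℤ)) i - (fun _ => (0:ℤ)) i ∧
      (fun _ : Fin d => (L:ℤ)) i - (fun _ => (0:ℤ)) i ≤ ((2 * r : ℕ) : ℤ) * 2 ^ k + 1 := by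
    intro i
    constructor
    · have : ((r * 2 ^ k : ℕ) : ℤ) ≤ (L : ℤ) := by exact_mod_cast hk1
      push_cast at this
      simpa using this
    · have h3 : L ≤ 2 * r * 2 ^ k := by
        have : r * 2 ^ (k+1) = 2 * r * 2 ^ k := by ring
        omega
      have : (L : ℤ) ≤ ((2 * r * 2 ^ k : ℕ) : ℤ) := by exact_mod_cast h3
      push_cast at this
      simp only [sub_zero]
      push_cast
      linarith
  obtain ⟨v, w, h1, h2, h3⟩ := dec hd r (2 * r) k hr _ _ hbox (fun x => a (pr L x))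
  have hDT := en_le_DT a
  have hr0 : (0:ℝ) < r := by exact_mod_cast hr
  have hr1 : (1:ℝ) ≤ r := by exact_mod_cast hr
  have hD0 := DT_nonneg a
  have hM : (((2 * r : ℕ) : ℝ) + 1) ^ 2 ≤ 9 * (r:ℝ) ^ 2 := by
    push_cast
    nlinarith
  have he0 := en_nonneg (bx (fun _ : Fin d => (0:ℤ)) (fun _ => (L:ℤ))) (fun x => a (pr L x))
  refine ⟨avg (bx (fun _ : Fin d => (0:ℤ)) (fun _ => (L:ℤ))) (fun x => a (pr L x)),
    fun x => v (rp x), fun x => w (rp x), fun x => ?_, ?_, fun x => ?_⟩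
  · have := h1 (rp x) (rp_mem x)
    rw [pr_rp] at this
    exact this
  · rw [sum_torus]
    have e : ∑ y ∈ bx (fun _ : Fin d => (0:ℤ)) (fun _ => (L:ℤ)), w (rp (pr L y)) ^ 2 =
        ∑ y ∈ bx (fun _ : Fin d => (0:ℤ)) (fun _ => (L:ℤ)), w y ^ 2 :=
      Finset.sum_congr rfl fun y hy => by rw [rp_pr hy]
    rw [e]
    refine h2.trans ?_
    calc (d:ℝ) / 2 * (((2 * r : ℕ) : ℝ) + 1) ^ 2 *
          en (bx (fun _ : Fin d => (0:ℤ)) (fun _ => (L:ℤ))) (fun x => a (pr L x))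
        ≤ (d:ℝ) / 2 * (9 * (r:ℝ) ^ 2) * DT a := by
          refine mul_le_mul (mul_le_mul_of_nonneg_left hM (by positivity)) hDT he0 (by positivity)
      _ = 9 / 2 * d * (r : ℝ) ^ 2 * DT a := by ring
  · refine (h3 (rp x) (rp_mem x)).trans ?_
    calc 32 * (d:ℝ) * (((2 * r : ℕ) : ℝ) + 1) ^ 2 / (r:ℝ) ^ d *
          en (bx (fun _ : Fin d => (0:ℤ)) (fun _ => (L:ℤ))) (fun x => a (pr L x))
        ≤ 32 * (d:ℝ) * (9 * (r:ℝ) ^ 2) / (r:ℝ) ^ d * DT a := by
          refine mul_le_mul ?_ hDT he0 (by positivity)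
          exact div_le_div_of_nonneg_right
            (mul_le_mul_of_nonneg_left hM (by positivity)) (by positivity)
      _ = 288 * d * ((r : ℝ) ^ 2 / (r : ℝ) ^ d) * DT a := by ring

/-- The decay factor `l^2/l^d`. -/
noncomputable def rho (d : ℕ) (l : ℝ) : ℝ := l ^ 2 / l ^ d

/-- constant of the smoothing lemma -/
noncomputable def CH (d : ℕ) : ℝ := 288 * d * 2 ^ d

/-- **Smoothing lemma on the torus**, real scale `l`, `1 ≤ l ≤ L`. -/
theorem decT [NeZero L] (hd : 3 ≤ d) (l : ℝ) (hl : 1 ≤ l) (hlL : l ≤ L)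
    (a : (Fin d → ZMod L) → ℝ) :
    ∃ (c : ℝ) (v w : (Fin d → ZMod L) → ℝ), (∀ x, a x = c + v x + w x) ∧
      ∑ x, w x ^ 2 ≤ CH d * l ^ 2 * DT a ∧
      ∀ x, v x ^ 2 ≤ CH d * rho d l * DT a := by
  set r := ⌊l⌋₊ with hr
  have h0 : 0 ≤ l := by linarith
  have hr1 : 1 ≤ r := Nat.le_floor (by simpa using hl)
  have hrl : (r:ℝ) ≤ l := Nat.floor_le h0
  have hrL : r ≤ L := by
    have : (r:ℝ) ≤ L := hrl.trans hlL
    exact_mod_cast this
  have hl2 : l / 2 ≤ r := by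
    have h1 : l < r + 1 := Nat.lt_floor_add_one l
    have h2 : (1:ℝ) ≤ r := by exact_mod_cast hr1
    linarith
  have hr0 : (0:ℝ) < r := by exact_mod_cast hr1
  have hD0 := DT_nonneg a
  have h2d : (1:ℝ) ≤ 2 ^ d := one_le_pow₀ (by norm_num)
  obtain ⟨c, v, w, e1, e2, e3⟩ := decT_nat hd r hr1 hrL a
  refine ⟨c, v, w, e1, e2.trans ?_, fun x => (e3 x).trans ?_⟩
  · refine mul_le_mul_of_nonneg_right ?_ hD0
    have : (r:ℝ) ^ 2 ≤ l ^ 2 := pow_le_pow_left₀ hr0.le hrl 2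
    unfold CH
    calc 9 / 2 * (d:ℝ) * (r:ℝ) ^ 2 ≤ 288 * d * 1 * l ^ 2 := by
          have hd0 : (0:ℝ) ≤ d := by positivity
          nlinarith [mul_nonneg hd0 (sq_nonneg l), mul_le_mul_of_nonneg_left this hd0]
      _ ≤ 288 * d * 2 ^ d * l ^ 2 := by
          refine mul_le_mul_of_nonneg_right ?_ (by positivity)
          exact mul_le_mul_of_nonneg_left h2d (by positivity)
  · refine mul_le_mul_of_nonneg_right ?_ hD0
    unfold CH rho
    have hkey : (r:ℝ) ^ 2 / (r:ℝ) ^ d ≤ 2 ^ d * (l ^ 2 / l ^ d) := by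
      obtain ⟨n, rfl⟩ : ∃ n, d = n + 2 := ⟨d - 2, by omega⟩
      have e4 : (r:ℝ) ^ 2 / (r:ℝ) ^ (n+2) = 1 / (r:ℝ) ^ n := by
        rw [pow_add]; field_simp
      have e5 : l ^ 2 / l ^ (n+2) = 1 / l ^ n := by
        rw [pow_add]; field_simp
      rw [e4, e5]
      have h6 : (l / 2) ^ n ≤ (r:ℝ) ^ n := pow_le_pow_left₀ (by linarith) hl2 n
      have h7 : 0 < (l/2) ^ n := by positivity
      calc 1 / (r:ℝ) ^ n ≤ 1 / (l/2) ^ n := one_div_le_one_div_of_le h7 h6
        _ = 2 ^ n * (1 / l ^ n) := by rw [div_pow]; field_simp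
        _ ≤ 2 ^ (n+2) * (1 / l ^ n) := by
            refine mul_le_mul_of_nonneg_right ?_ (by positivity)
            exact pow_le_pow_right₀ (by norm_num) (by omega)
    calc 288 * (d:ℝ) * ((r:ℝ) ^ 2 / (r:ℝ) ^ d) ≤ 288 * d * (2 ^ d * (l ^ 2 / l ^ d)) :=
          mul_le_mul_of_nonneg_left hkey (by positivity)
      _ = 288 * d * 2 ^ d * (l ^ 2 / l ^ d) := by ring

/-- **Form version.** `u` real on a set `X` of sites, `a` on the whole torus with
`DT a / K + ∑_X m (u-a)²/(1+dl) ≤ q`. Then `u = c + v + w` on `X` with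
`∑_X m w²/(1+dl) ≤ (2 + 2 CH l² K mm) q` and `v² ≤ CH rho(l) K q`. -/
theorem smooth [NeZero L] (hd : 3 ≤ d) (l : ℝ) (hl : 1 ≤ l) (hlL : l ≤ L)
    (X : Finset (Fin d → ZMod L)) (m dl : (Fin d → ZMod L) → ℝ) (K mm q : ℝ) (hK : 0 < K)
    (hmm : 0 ≤ mm) (hm : ∀ x ∈ X, 0 ≤ m x ∧ m x ≤ mm) (hdl : ∀ x ∈ X, 0 ≤ dl x)
    (u a : (Fin d → ZMod L) → ℝ)
    (h : DT a / K + ∑ x ∈ X, m x * (u x - a x) ^ 2 / (1 + dl x) ≤ q) :
    ∃ (c : ℝ) (v w : (Fin d → ZMod L) → ℝ), (∀ x, u x = c + v x + w x) ∧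
      ∑ x ∈ X, m x * w x ^ 2 / (1 + dl x) ≤ (2 + 2 * CH d * l ^ 2 * K * mm) * q ∧
      ∀ x, v x ^ 2 ≤ CH d * rho d l * K * q := by
  obtain ⟨c, v, w, e1, e2, e3⟩ := decT hd l hl hlL a
  have hD0 := DT_nonneg a
  have hS0 : 0 ≤ ∑ x ∈ X, m x * (u x - a x) ^ 2 / (1 + dl x) :=
    Finset.sum_nonneg fun x hx => by
      have := (hm x hx).1; have := hdl x hx; positivity
  have hDq : DT a ≤ K * q := by
    have : DT a / K ≤ q := by linarith
    rwa [div_le_iff₀ hK, mul_comm] at this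
  have hSq : ∑ x ∈ X, m x * (u x - a x) ^ 2 / (1 + dl x) ≤ q := by
    have : 0 ≤ DT a / K := by positivity
    linarith
  have hC : 0 ≤ CH d := by unfold CH; positivity
  have hrho : 0 ≤ rho d l := by unfold rho; positivity
  refine ⟨c, v, fun x => u x - a x + w x, fun x => by linarith [e1 x], ?_, fun x => ?_⟩
  · calc ∑ x ∈ X, m x * (u x - a x + w x) ^ 2 / (1 + dl x)
        ≤ ∑ x ∈ X, (2 * (m x * (u x - a x) ^ 2 / (1 + dl x)) + 2 * mm * w x ^ 2) := by
          refine Finset.sum_le_sum fun x hx => ?_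
          have h1 := hm x hx
          have h2 := hdl x hx
          have h3 : m x * w x ^ 2 / (1 + dl x) ≤ mm * w x ^ 2 := by
            rw [div_le_iff₀ (by positivity)]
            have h4 : m x * w x ^ 2 ≤ mm * w x ^ 2 :=
              mul_le_mul_of_nonneg_right h1.2 (by positivity)
            have h5 : 0 ≤ mm * w x ^ 2 * dl x := by positivity
            nlinarith
          have h6 : m x * (u x - a x + w x) ^ 2 / (1 + dl x) ≤
              2 * (m x * (u x - a x) ^ 2 / (1 + dl x)) + 2 * (m x * w x ^ 2 / (1 + dl x)) := by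
            rw [← mul_div_assoc, ← mul_div_assoc, ← add_div]
            refine div_le_div_of_nonneg_right ?_ (by positivity)
            have : (u x - a x + w x) ^ 2 ≤ 2 * (u x - a x) ^ 2 + 2 * w x ^ 2 := by
              nlinarith [sq_nonneg (u x - a x - w x)]
            nlinarith [mul_le_mul_of_nonneg_left this h1.1]
          linarith
      _ = 2 * ∑ x ∈ X, m x * (u x - a x) ^ 2 / (1 + dl x) + 2 * mm * ∑ x ∈ X, w x ^ 2 := by
          rw [Finset.sum_add_distrib, ← Finset.mul_sum, ← Finset.mul_sum]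
      _ ≤ 2 * q + 2 * mm * (CH d * l ^ 2 * (K * q)) := by
          have h7 : ∑ x ∈ X, w x ^ 2 ≤ ∑ x, w x ^ 2 :=
            Finset.sum_le_sum_of_subset_of_nonneg (Finset.subset_univ _)
              fun x _ _ => by positivity
          have h8 : ∑ x ∈ X, w x ^ 2 ≤ CH d * l ^ 2 * (K * q) :=
            h7.trans (e2.trans (mul_le_mul_of_nonneg_left hDq (by positivity)))
          have := mul_le_mul_of_nonneg_left h8 (by positivity : (0:ℝ) ≤ 2 * mm)
          linarith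
      _ = _ := by ring
  · calc v x ^ 2 ≤ CH d * rho d l * DT a := e3 x
      _ ≤ CH d * rho d l * (K * q) := mul_le_mul_of_nonneg_left hDq (by positivity)
      _ = _ := by ring

/-- scalar lemma for the constant part -/
theorem const_part (C R l2 K mm mk D kX A c S S1 : ℝ) (hC : 0 < C) (hR : 0 < R) (hl2 : 0 < l2)
    (hK : 0 < K) (hmm : 0 ≤ mm) (hmk : 0 < mk) (hD : 0 ≤ D) (hkX : mk ≤ kX) (hA : 0 ≤ A)
    (hS : |S| ≤ S1)
    (hc : c ^ 2 * kX ≤ 3 * A + 3 * (C * R * D) * kX + 3 * mm * (C * l2 * D)) :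
    2 * (c * S) ≤ (24 * C * R * K + (3 + 24 * C * l2 * K * mm) / mk) * S1 ^ 2 + A +
      D / (4 * K) := by
  have hkX0 : 0 < kX := hmk.trans_le hkX
  obtain ⟨t, ht⟩ : ∃ t, t = 24 * C * R * K + (3 + 24 * C * l2 * K * mm) / mk := ⟨_, rfl⟩
  have htpos : 0 < t := by rw [ht]; positivity
  rw [← ht]
  have h1 : c * S ≤ |c| * S1 :=
    (le_abs_self _).trans (by rw [abs_mul]; exact mul_le_mul_of_nonneg_left hS (abs_nonneg _))
  have h2 : 2 * (|c| * S1) ≤ t * S1 ^ 2 + c ^ 2 / t := by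
    have h3 : 0 ≤ (t * S1 - |c|) ^ 2 / t := by positivity
    have h4 : (t * S1 - |c|) ^ 2 / t = t * S1 ^ 2 + |c| ^ 2 / t - 2 * (|c| * S1) := by
      generalize |c| = cc
      field_simp
      ring
    rw [h4, sq_abs] at h3
    linarith
  have h5 : c ^ 2 / t ≤ A + D / (4 * K) := by
    rw [div_le_iff₀ htpos]
    -- multiply by kX
    have hP : 3 ≤ 3 / mk * kX := by
      rw [div_mul_eq_mul_div, le_div_iff₀ hmk]; nlinarith
    have hQ : 1 ≤ kX / mk := by rw [le_div_iff₀ hmk]; linarith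
    have h6 : c ^ 2 * kX ≤ (A + D / (4 * K)) * t * kX := by
      refine hc.trans ?_
      have e1 : (A + D / (4 * K)) * t * kX = A * (3 / mk * kX) + 6 * (C * R * D) * kX +
          6 * mm * (C * l2 * D) * (kX / mk) +
          (A * ((24 * C * R * K + 24 * C * l2 * K * mm / mk) * kX) +
            D / (4 * K) * (3 / mk * kX)) := by
        rw [ht]; field_simp; ring
      have e2 : 0 ≤ A * ((24 * C * R * K + 24 * C * l2 * K * mm / mk) * kX) +
            D / (4 * K) * (3 / mk * kX) := by positivity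
      have e3 : 3 * A ≤ A * (3 / mk * kX) := by
        have := mul_le_mul_of_nonneg_left hP hA
        linarith
      have e4 : 3 * (C * R * D) * kX ≤ 6 * (C * R * D) * kX := by
        have : 0 ≤ (C * R * D) * kX := by positivity
        linarith
      have e5 : 3 * mm * (C * l2 * D) ≤ 6 * mm * (C * l2 * D) * (kX / mk) := by
        have h7 : 0 ≤ mm * (C * l2 * D) := by positivity
        have h8 := mul_le_mul_of_nonneg_left hQ h7
        nlinarith
      rw [e1]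
      linarith
    exact le_of_mul_le_mul_right h6 hkX0
  linarith

/-- scalar completion of squares -/
theorem sq_split (t x y : ℝ) (ht : 0 < t) : 2 * (x * y) ≤ t * x ^ 2 + y ^ 2 / t := by
  have h3 : 0 ≤ (t * x - y) ^ 2 / t := by positivity
  have h4 : (t * x - y) ^ 2 / t = t * x ^ 2 + y ^ 2 / t - 2 * (x * y) := by
    field_simp
    ring
  rw [h4] at h3
  linarith

/-- **Dual (low-high) version.** For `s` real on `X` and `a` on the torus:
the part of `∑ m s²` which is not seen by the form is small on high frequencies and of low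
dimension: it is at most `∑ dl/(1+dl) m s² + 4 CH l² K mm ∑ m s² + C (∑ m |s|)²`. -/
theorem lowhigh [NeZero L] (hd : 3 ≤ d) (l : ℝ) (hl : 1 ≤ l) (hlL : l ≤ L)
    (X : Finset (Fin d → ZMod L)) (m dl : (Fin d → ZMod L) → ℝ) (K mm mk q : ℝ) (hK : 0 < K)
    (hmm : 0 ≤ mm) (hm : ∀ x ∈ X, 0 ≤ m x ∧ m x ≤ mm) (hdl : ∀ x ∈ X, 0 ≤ dl x)
    (hmk : 0 < mk) (hmk' : mk ≤ ∑ x ∈ X, m x / (1 + dl x))
    (s a : (Fin d → ZMod L) → ℝ)
    (h : DT a / K + ∑ x ∈ X, m x * (s x - a x) ^ 2 / (1 + dl x) ≤ q) :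
    ∑ x ∈ X, m x * s x ^ 2 - q ≤ ∑ x ∈ X, dl x / (1 + dl x) * (m x * s x ^ 2) +
      4 * CH d * l ^ 2 * K * mm * ∑ x ∈ X, m x * s x ^ 2 +
      (28 * CH d * rho d l * K + (3 + 24 * CH d * l ^ 2 * K * mm) / mk) *
        (∑ x ∈ X, m x * |s x|) ^ 2 := by
  obtain ⟨c, v, w, e1, e2, e3⟩ := decT hd l hl hlL a
  have hD0 := DT_nonneg a
  have hC : 0 ≤ CH d := by unfold CH; positivity
  have hCpos : 0 < CH d := by
    unfold CH
    have : (0:ℝ) < d := by exact_mod_cast (by omega : 0 < d)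
    positivity
  have hl0 : 0 < l := by linarith
  have hrho : 0 < rho d l := by unfold rho; positivity
  set κ : (Fin d → ZMod L) → ℝ := fun x => m x / (1 + dl x) with hκ
  have hκ0 : ∀ x ∈ X, 0 ≤ κ x := fun x hx => by
    have := (hm x hx).1; have := hdl x hx; simp only [hκ]; positivity
  have hκm : ∀ x ∈ X, κ x ≤ m x := fun x hx => by
    have h1 := (hm x hx).1; have h2 := hdl x hx
    simp only [hκ]
    exact div_le_self h1 (by linarith)
  set D := DT a with hD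
  set S1 := ∑ x ∈ X, m x * |s x| with hS1
  have hS10 : 0 ≤ S1 := Finset.sum_nonneg fun x hx => mul_nonneg (hm x hx).1 (abs_nonneg _)
  set S2 := ∑ x ∈ X, m x * s x ^ 2 with hS2
  -- the main identity
  have main : S2 - q ≤ ∑ x ∈ X, dl x / (1 + dl x) * (m x * s x ^ 2) +
      (2 * ∑ x ∈ X, κ x * s x * a x - ∑ x ∈ X, κ x * a x ^ 2) - D / K := by
    have e4 : S2 = ∑ x ∈ X, dl x / (1 + dl x) * (m x * s x ^ 2) + ∑ x ∈ X, κ x * s x ^ 2 := by
      rw [hS2, ← Finset.sum_add_distrib]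
      refine Finset.sum_congr rfl fun x hx => ?_
      have h2 := hdl x hx
      have h3 : (1 + dl x) ≠ 0 := by positivity
      simp only [hκ]
      field_simp
      ring
    have e5 : ∑ x ∈ X, m x * (s x - a x) ^ 2 / (1 + dl x) = ∑ x ∈ X, κ x * s x ^ 2 -
        2 * ∑ x ∈ X, κ x * s x * a x + ∑ x ∈ X, κ x * a x ^ 2 := by
      rw [Finset.mul_sum, ← Finset.sum_sub_distrib, ← Finset.sum_add_distrib]
      refine Finset.sum_congr rfl fun x hx => ?_
      have h2 := hdl x hx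
      have h3 : (1 + dl x) ≠ 0 := by positivity
      simp only [hκ]
      field_simp
      ring
    rw [e5] at h
    linarith
  -- split the cross term
  have cross : ∑ x ∈ X, κ x * s x * a x = c * ∑ x ∈ X, κ x * s x + ∑ x ∈ X, κ x * s x * v x +
      ∑ x ∈ X, κ x * s x * w x := by
    rw [Finset.mul_sum, ← Finset.sum_add_distrib, ← Finset.sum_add_distrib]
    refine Finset.sum_congr rfl fun x _ => ?_
    rw [e1 x]; ring
  have hw2 : ∑ x ∈ X, w x ^ 2 ≤ CH d * l ^ 2 * D :=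
    (Finset.sum_le_sum_of_subset_of_nonneg (Finset.subset_univ _)
      fun x _ _ => by positivity).trans e2
  -- w part
  have hτ1 : 0 < 4 * CH d * l ^ 2 * K := by positivity
  have wpart : 2 * ∑ x ∈ X, κ x * s x * w x ≤ 4 * CH d * l ^ 2 * K * mm * S2 + D / (4 * K) := by
    have h1 : 2 * ∑ x ∈ X, κ x * s x * w x ≤
        ∑ x ∈ X, (4 * CH d * l ^ 2 * K * (κ x * s x) ^ 2 + w x ^ 2 / (4 * CH d * l ^ 2 * K)) := by
      rw [Finset.mul_sum]
      refine Finset.sum_le_sum fun x _ => ?_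
      exact sq_split _ _ _ hτ1
    rw [Finset.sum_add_distrib, ← Finset.mul_sum, ← Finset.sum_div] at h1
    have h4 : ∑ x ∈ X, (κ x * s x) ^ 2 ≤ mm * S2 := by
      rw [hS2, Finset.mul_sum]
      refine Finset.sum_le_sum fun x hx => ?_
      have hk := hκ0 x hx
      have hk2 := hκm x hx
      have hm2 := hm x hx
      have h5 : κ x * κ x ≤ mm * m x := mul_le_mul (hk2.trans hm2.2) hk2 hk hmm
      calc (κ x * s x) ^ 2 = κ x * κ x * s x ^ 2 := by ring
        _ ≤ mm * m x * s x ^ 2 := mul_le_mul_of_nonneg_right h5 (by positivity)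
        _ = mm * (m x * s x ^ 2) := by ring
    have h6 : (∑ x ∈ X, w x ^ 2) / (4 * CH d * l ^ 2 * K) ≤ D / (4 * K) := by
      rw [div_le_div_iff₀ hτ1 (by positivity)]
      nlinarith [mul_le_mul_of_nonneg_right hw2 (by positivity : (0:ℝ) ≤ 4 * K)]
    have h7 := mul_le_mul_of_nonneg_left h4 hτ1.le
    linarith
  -- sup of v
  set V2 := CH d * rho d l * D with hV2
  have hV20 : 0 ≤ V2 := by positivity
  have hvs : ∀ x, |v x| ≤ Real.sqrt V2 := fun x => by
    rw [← Real.sqrt_sq_eq_abs]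
    exact Real.sqrt_le_sqrt (e3 x)
  have hτ2 : 0 < 4 * CH d * rho d l * K := by positivity
  have vpart : 2 * ∑ x ∈ X, κ x * s x * v x ≤ 4 * CH d * rho d l * K * S1 ^ 2 + D / (4 * K) := by
    have h1 : ∑ x ∈ X, κ x * s x * v x ≤ S1 * Real.sqrt V2 := by
      rw [hS1, Finset.sum_mul]
      refine Finset.sum_le_sum fun x hx => ?_
      have hk := hκ0 x hx
      calc κ x * s x * v x ≤ |κ x * s x * v x| := le_abs_self _
        _ = κ x * |s x| * |v x| := by rw [abs_mul, abs_mul, abs_of_nonneg hk]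
        _ ≤ m x * |s x| * Real.sqrt V2 :=
          mul_le_mul (mul_le_mul_of_nonneg_right (hκm x hx) (abs_nonneg _)) (hvs x)
            (abs_nonneg _) (mul_nonneg (hm x hx).1 (abs_nonneg _))
    have h2 := sq_split (4 * CH d * rho d l * K) S1 (Real.sqrt V2) hτ2
    rw [Real.sq_sqrt hV20] at h2
    have h4 : V2 / (4 * CH d * rho d l * K) = D / (4 * K) := by
      rw [hV2]; field_simp
    rw [h4] at h2
    linarith
  -- the constant part
  set κX := ∑ x ∈ X, κ x with hκX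
  have hκXpos : 0 < κX := hmk.trans_le hmk'
  have hA0 : 0 ≤ ∑ x ∈ X, κ x * a x ^ 2 :=
    Finset.sum_nonneg fun x hx => mul_nonneg (hκ0 x hx) (sq_nonneg _)
  have csq : c ^ 2 * κX ≤ 3 * ∑ x ∈ X, κ x * a x ^ 2 + 3 * V2 * κX +
      3 * mm * (CH d * l ^ 2 * D) := by
    have h1 : c ^ 2 * κX ≤ ∑ x ∈ X, (3 * (κ x * a x ^ 2) + 3 * V2 * κ x + 3 * mm * w x ^ 2) := by
      rw [hκX, Finset.mul_sum]
      refine Finset.sum_le_sum fun x hx => ?_
      have hk := hκ0 x hx
      have h2 : c ^ 2 ≤ 3 * a x ^ 2 + 3 * v x ^ 2 + 3 * w x ^ 2 := by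
        have : c = a x - v x - w x := by rw [e1 x]; ring
        rw [this]
        nlinarith [sq_nonneg (a x + v x), sq_nonneg (a x + w x), sq_nonneg (v x - w x)]
      have h3 := e3 x
      have h4 : κ x * w x ^ 2 ≤ mm * w x ^ 2 :=
        mul_le_mul_of_nonneg_right ((hκm x hx).trans (hm x hx).2) (by positivity)
      have h5 := mul_le_mul_of_nonneg_left h2 hk
      have h6 := mul_le_mul_of_nonneg_left h3 hk
      have h7 : κ x * v x ^ 2 ≤ κ x * V2 := h6
      nlinarith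
    rw [Finset.sum_add_distrib, Finset.sum_add_distrib, ← Finset.mul_sum, ← Finset.mul_sum,
      ← Finset.mul_sum] at h1
    have h8 := mul_le_mul_of_nonneg_left hw2 (by positivity : (0:ℝ) ≤ 3 * mm)
    linarith
  have hSS : |∑ x ∈ X, κ x * s x| ≤ S1 := by
    refine (Finset.abs_sum_le_sum_abs _ _).trans (Finset.sum_le_sum fun x hx => ?_)
    rw [abs_mul, abs_of_nonneg (hκ0 x hx)]
    exact mul_le_mul_of_nonneg_right (hκm x hx) (abs_nonneg _)
  have cpart := const_part (CH d) (rho d l) (l ^ 2) K mm mk D κX (∑ x ∈ X, κ x * a x ^ 2) c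
    (∑ x ∈ X, κ x * s x) S1 hCpos hrho (by positivity) hK hmm hmk hD0 hmk' hA0 hSS csq
  have e10 : D / K = D / (4 * K) + D / (4 * K) + D / (4 * K) + D / (4 * K) := by
    field_simp; ring
  have hDK : 0 ≤ D / (4 * K) := by positivity
  have e11 : (28 * CH d * rho d l * K + (3 + 24 * CH d * l ^ 2 * K * mm) / mk) * S1 ^ 2 =
      (24 * CH d * rho d l * K + (3 + 24 * CH d * l ^ 2 * K * mm) / mk) * S1 ^ 2 +
        4 * CH d * rho d l * K * S1 ^ 2 := by
    ring
  rw [cross] at main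
  rw [e11]
  linarith

end Pool.Agent.ANF.Heat
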