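import Pool.Agent.ANF.Heat.Loc
import Pool.Agent.ANP.Tor

/-!
ANF heat part (helper43), module 5: balls of the torus for the sup distance `ANP.dT`, explicit
cut-off functions.
-/

open scoped BigOperators
open Finset

namespace Pool.Agent.ANF.Heat

open Pool.Agent.ANP Pool.Agent.ANM

variable {d L : ℕ}

open Classical in
/-- The ball of radius `R` around `c` for the sup distance. -/
noncomputable def ballF [NeZero L] (c : Fin d → ZMod L) (R : ℕ) : Finset (Fin d → ZMod L) :=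
  Finset.univ.filter (fun x => dT x c ≤ R)

theorem mem_ballF [NeZero L] {c : Fin d → ZMod L} {R : ℕ} {x : Fin d → ZMod L} :
    x ∈ ballF c R ↔ dT x c ≤ R := by
  classical
  rw [ballF, Finset.mem_filter]
  exact ⟨fun h => h.2, fun h => ⟨Finset.mem_univ _, h⟩⟩

/-- The lower corner of the ball. -/
def crn (c : Fin d → ZMod L) (R : ℕ) : Fin d → ZMod L := fun i => c i - (R : ZMod L)

theorem val_iff [NeZero L] (a : ZMod L) (R : ℕ) (hR : 2 * R + 1 ≤ L) :
    (a + (R : ZMod L)).val < 2 * R + 1 ↔ a.valMinAbs.natAbs ≤ R := by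
  constructor
  · intro h
    have h1 : (((a + (R : ZMod L)).val : ℤ) - (R : ℤ) : ℤ).natAbs ≤ R := by omega
    refine (vma_le_of_cast a (((a + (R : ZMod L)).val : ℤ) - (R : ℤ)) ?_).trans h1
    push_cast
    rw [ZMod.natCast_zmod_val]
    ring
  · intro h
    have h1 : a + (R : ZMod L) = ((a.valMinAbs + (R : ℤ) : ℤ) : ZMod L) := by
      rw [Int.cast_add, ZMod.coe_valMinAbs, Int.cast_natCast]
    have h2 : ((a + (R : ZMod L)).val : ℤ) = a.valMinAbs + (R : ℤ) := by
      rw [h1, ZMod.val_intCast]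
      refine Int.emod_eq_of_lt (by omega) (by omega)
    omega

theorem ballF_eq [NeZero L] (c : Fin d → ZMod L) (R : ℕ) (hR : 2 * R + 1 ≤ L) :
    ballF c R = cubeF (crn c R) (2 * R + 1) := by
  ext x
  rw [mem_ballF, mem_cubeF, dT_le_iff]
  refine forall_congr' fun i => ?_
  have e : x i - crn c R i = (x i - c i) + (R : ZMod L) := by
    unfold crn; ring
  rw [e, val_iff _ R hR]

theorem card_ballF [NeZero L] (c : Fin d → ZMod L) (R : ℕ) (hR : 2 * R + 1 ≤ L) :
    #(ballF c R) = (2 * R + 1) ^ d := by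
  rw [ballF_eq c R hR, card_cube' _ hR]

/-- **Poincare inequality on a ball.** -/
theorem poin_ball [NeZero L] (c : Fin d → ZMod L) (R : ℕ) (hR : 2 * R + 1 ≤ L)
    (a : (Fin d → ZMod L) → ℝ) :
    ∑ x ∈ ballF c R, (a x - avT (ballF c R) a) ^ 2 ≤
      d / 2 * (2 * (R : ℝ) + 1) ^ 2 * enT (ballF c R) a := by
  rw [ballF_eq c R hR]
  have := poin_cube (crn c R) hR a
  push_cast at this
  exact this

/-- **Smoothing lemma on a ball.** -/
theorem dec_ball [NeZero L] (hd : 3 ≤ d) (c : Fin d → ZMod L) (R : ℕ) (hR : 2 * R + 1 ≤ L)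
    (l : ℝ) (hl : 1 ≤ l) (hlR : l ≤ 2 * R + 1) (a : (Fin d → ZMod L) → ℝ) :
    ∃ v w : (Fin d → ZMod L) → ℝ, (∀ x, a x = avT (ballF c R) a + v x + w x) ∧
      ∑ x ∈ ballF c R, w x ^ 2 ≤ CH d * l ^ 2 * enT (ballF c R) a ∧
      ∀ x ∈ ballF c R, v x ^ 2 ≤ CH d * rho d l * enT (ballF c R) a := by
  rw [ballF_eq c R hR]
  exact dec_cube hd (crn c R) hR l hl (by push_cast; exact hlR) a

/-- The cut-off function: `1` for `dT x c ≤ r`, `0` for `dT x c ≥ R`. -/
noncomputable def cut [NeZero L] (c : Fin d → ZMod L) (r R : ℕ) (x : Fin d → ZMod L) : ℝ :=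
  min 1 (max 0 (((R : ℝ) - dT x c) / ((R : ℝ) - r)))

theorem cut_nonneg [NeZero L] (c : Fin d → ZMod L) (r R : ℕ) (x : Fin d → ZMod L) :
    0 ≤ cut c r R x := le_min zero_le_one (le_max_left _ _)

theorem cut_le_one [NeZero L] (c : Fin d → ZMod L) (r R : ℕ) (x : Fin d → ZMod L) :
    cut c r R x ≤ 1 := min_le_left _ _

theorem cut_eq_one [NeZero L] {c : Fin d → ZMod L} {r R : ℕ} (hrR : r < R)
    {x : Fin d → ZMod L} (hx : dT x c ≤ r) : cut c r R x = 1 := by
  have h1 : (0:ℝ) < (R : ℝ) - r := by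
    have : (r:ℝ) < R := by exact_mod_cast hrR
    linarith
  have h2 : (dT x c : ℝ) ≤ r := by exact_mod_cast hx
  have h3 : 1 ≤ ((R : ℝ) - dT x c) / ((R : ℝ) - r) := by
    rw [le_div_iff₀ h1]; linarith
  exact min_eq_left (h3.trans (le_max_right _ _))

theorem cut_eq_zero [NeZero L] {c : Fin d → ZMod L} {r R : ℕ} (hrR : r < R)
    {x : Fin d → ZMod L} (hx : R ≤ dT x c) : cut c r R x = 0 := by
  have h1 : (0:ℝ) < (R : ℝ) - r := by
    have : (r:ℝ) < R := by exact_mod_cast hrR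
    linarith
  have h2 : (R : ℝ) ≤ dT x c := by exact_mod_cast hx
  have h3 : ((R : ℝ) - dT x c) / ((R : ℝ) - r) ≤ 0 := div_nonpos_of_nonpos_of_nonneg
    (by linarith) h1.le
  unfold cut
  rw [max_eq_left h3]
  exact min_eq_right zero_le_one

theorem cut_lip [NeZero L] (c : Fin d → ZMod L) {r R : ℕ} (hrR : r < R)
    (x y : Fin d → ZMod L) (hxy : dT x y ≤ 1) : |cut c r R x - cut c r R y| ≤ 1 / ((R : ℝ) - r) := by
  have h1 : (0:ℝ) < (R : ℝ) - r := by
    have : (r:ℝ) < R := by exact_mod_cast hrR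
    linarith
  have htri1 : (dT x c : ℝ) ≤ dT y c + 1 := by
    have h2 := (nmet_dT (d := d) (L := L)).tri x y c
    have : dT x c ≤ dT y c + 1 := by omega
    exact_mod_cast this
  have htri2 : (dT y c : ℝ) ≤ dT x c + 1 := by
    have h2 := (nmet_dT (d := d) (L := L)).tri y x c
    have h3 := (nmet_dT (d := d) (L := L)).symm x y
    have : dT y c ≤ dT x c + 1 := by omega
    exact_mod_cast this
  have key : ∀ s t : ℝ, |min 1 (max 0 s) - min 1 (max 0 t)| ≤ |s - t| := by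
    intro s t
    have e1 : |min 1 (max 0 s) - min 1 (max 0 t)| ≤ |max 0 s - max 0 t| := by
      have := abs_min_sub_min_le_max 1 (max 0 s) 1 (max 0 t)
      simpa using this
    have e2 : |max 0 s - max 0 t| ≤ |s - t| := by
      have := abs_max_sub_max_le_max 0 s 0 t
      simpa using this
    exact e1.trans e2
  refine (key _ _).trans ?_
  rw [← sub_div, abs_div, abs_of_pos h1]
  refine div_le_div_of_nonneg_right ?_ h1.le
  rw [abs_le]
  constructor <;> linarith

/-- **Cut-off on a ball**: with `c' = mean of a over the ball of radius R`,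
`DT (cut (a - c')) ≤ (2 + 9 d² R²/(R-r)²) enT (ball R) a`. -/
theorem cut_ball [NeZero L] (c : Fin d → ZMod L) {r R : ℕ} (hrR : r < R) (hR : 2 * R + 1 ≤ L)
    (a : (Fin d → ZMod L) → ℝ) :
    DT (fun x => cut c r R x * (a x - avT (ballF c R) a)) ≤
      (2 + 9 * d ^ 2 * (R : ℝ) ^ 2 / ((R : ℝ) - r) ^ 2) * enT (ballF c R) a := by
  have h1 : (0:ℝ) < (R : ℝ) - r := by
    have : (r:ℝ) < R := by exact_mod_cast hrR
    linarith
  have hR1 : (1:ℝ) ≤ R := by
    have : 1 ≤ R := by omega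
    exact_mod_cast this
  have h := cutoff_cube (crn c R) hR (cut c r R) a (1 / ((R : ℝ) - r))
    (fun x => by rw [abs_of_nonneg (cut_nonneg c r R x)]; exact cut_le_one c r R x)
    (fun x i => by
      refine cut_lip c hrR _ _ ?_
      have := dT_single x i
      rw [(nmet_dT (d := d) (L := L)).symm]
      exact this)
    (fun x i hx => by
      rw [← ballF_eq c R hR, mem_ballF, mem_ballF] at hx
      have h2 := dT_single x i
      have h3 := (nmet_dT (d := d) (L := L)).tri x (x + Pi.single i 1) c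
      have h4 := (nmet_dT (d := d) (L := L)).tri (x + Pi.single i 1) x c
      have h5 := (nmet_dT (d := d) (L := L)).symm x (x + Pi.single i 1)
      constructor
      · exact cut_eq_zero hrR (by omega)
      · exact cut_eq_zero hrR (by omega))
  rw [← ballF_eq c R hR] at h
  refine h.trans (mul_le_mul_of_nonneg_right ?_ (enT_nonneg _ _))
  have h5 : ((2 * R + 1 : ℕ) : ℝ) ^ 2 ≤ 9 * (R:ℝ) ^ 2 := by
    push_cast
    nlinarith
  have h6 : (d:ℝ) ^ 2 * (1 / ((R : ℝ) - r)) ^ 2 * ((2 * R + 1 : ℕ) : ℝ) ^ 2 ≤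
      (d:ℝ) ^ 2 * (1 / ((R : ℝ) - r)) ^ 2 * (9 * (R:ℝ) ^ 2) :=
    mul_le_mul_of_nonneg_left h5 (by positivity)
  have h7 : (d:ℝ) ^ 2 * (1 / ((R : ℝ) - r)) ^ 2 * (9 * (R:ℝ) ^ 2) =
      9 * d ^ 2 * (R : ℝ) ^ 2 / ((R : ℝ) - r) ^ 2 := by
    field_simp
  linarith

end Pool.Agent.ANF.Heat
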