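import Pool.Agent.ANF.Heat.Poin

/-!
ANF heat part (helper43), module 2: decomposition of a function on a box into a constant,
a part with small sup norm and a part with small square sum (block averages on all dyadic
scales; `d ≥ 3`).
-/

open scoped BigOperators
open Finset

namespace Pool.Agent.ANF.Heat

variable {d : ℕ}

/-- The average over a finite set. -/
noncomputable def avg (B : Finset (Fin d → ℤ)) (a : (Fin d → ℤ) → ℝ) : ℝ :=
  (∑ x ∈ B, a x) / #B

theorem sum_pair {ι : Type*} (B : Finset ι) (a : ι → ℝ) :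
    ∑ x ∈ B, ∑ y ∈ B, (a x - a y) ^ 2 = 2 * #B * ∑ x ∈ B, a x ^ 2 - 2 * (∑ x ∈ B, a x) ^ 2 := by
  have e : ∀ x ∈ B, ∑ y ∈ B, (a x - a y) ^ 2 =
      #B * a x ^ 2 - 2 * a x * ∑ y ∈ B, a y + ∑ y ∈ B, a y ^ 2 := by
    intro x _
    have : ∀ y ∈ B, (a x - a y) ^ 2 = a x ^ 2 - 2 * a x * a y + a y ^ 2 := fun y _ => by ring
    rw [Finset.sum_congr rfl this, Finset.sum_add_distrib, Finset.sum_sub_distrib,
      ← Finset.mul_sum]
    simp
  rw [Finset.sum_congr rfl e, Finset.sum_add_distrib, Finset.sum_sub_distrib, ← Finset.mul_sum,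
    ← Finset.sum_mul, ← Finset.mul_sum]
  simp only [Finset.sum_const, nsmul_eq_mul]
  ring

theorem sum_var (B : Finset (Fin d → ℤ)) (a : (Fin d → ℤ) → ℝ) (hB : B.Nonempty) :
    ∑ x ∈ B, (a x - avg B a) ^ 2 = (∑ x ∈ B, ∑ y ∈ B, (a x - a y) ^ 2) / (2 * #B) := by
  have hc : (0:ℝ) < #B := by exact_mod_cast hB.card_pos
  rw [sum_pair]
  have : ∀ x ∈ B, (a x - avg B a) ^ 2 = a x ^ 2 - 2 * avg B a * a x + (avg B a) ^ 2 :=
    fun x _ => by ring
  rw [Finset.sum_congr rfl this, Finset.sum_add_distrib, Finset.sum_sub_distrib,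
    ← Finset.mul_sum]
  simp only [Finset.sum_const, nsmul_eq_mul]
  unfold avg
  field_simp
  ring

/-- Poincare inequality, variance form. -/
theorem poin_var (lo hi : Fin d → ℤ) (s : ℝ) (hs : ∀ i, ((hi i - lo i : ℤ) : ℝ) ≤ s)
    (a : (Fin d → ℤ) → ℝ) :
    ∑ x ∈ bx lo hi, (a x - avg (bx lo hi) a) ^ 2 ≤ d / 2 * s ^ 2 * en (bx lo hi) a := by
  rcases Finset.eq_empty_or_nonempty (bx lo hi) with he | hne
  · rw [he]; simp [en]
  have hc : (0:ℝ) < #(bx lo hi) := by exact_mod_cast hne.card_pos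
  rw [sum_var _ _ hne, div_le_iff₀ (by positivity)]
  have := poin_pair lo hi s hs a
  linarith

/-- Number of sites of a box. -/
theorem card_bx (lo hi : Fin d → ℤ) : #(bx lo hi) = ∏ i, (hi i - lo i).toNat := by
  simp [bx, Fintype.card_piFinset, Int.card_Ico]

theorem card_bx_ge (lo hi : Fin d → ℤ) (n : ℕ) (h : ∀ i, (n : ℤ) ≤ hi i - lo i) :
    (n : ℝ) ^ d ≤ #(bx lo hi) := by
  rw [card_bx]
  have : n ^ d ≤ ∏ i : Fin d, (hi i - lo i).toNat := by
    calc n ^ d = ∏ _i : Fin d, n := by simp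
      _ ≤ ∏ i : Fin d, (hi i - lo i).toNat :=
        Finset.prod_le_prod' fun i _ => by have := h i; omega
  exact_mod_cast this

/-- The corners of the sub-boxes of the dyadic splitting. -/
def slo (lo hi : Fin d → ℤ) (e : Fin d → Bool) : Fin d → ℤ :=
  fun i => if e i then (lo i + hi i) / 2 else lo i

def shi (lo hi : Fin d → ℤ) (e : Fin d → Bool) : Fin d → ℤ :=
  fun i => if e i then hi i else (lo i + hi i) / 2

/-- The class of a point. -/
def cls (lo hi : Fin d → ℤ) (x : Fin d → ℤ) : Fin d → Bool :=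
  fun i => decide ((lo i + hi i) / 2 ≤ x i)

theorem mem_sub {lo hi : Fin d → ℤ} (h : ∀ i, lo i ≤ hi i) {e : Fin d → Bool} {x : Fin d → ℤ} :
    x ∈ bx (slo lo hi e) (shi lo hi e) ↔ x ∈ bx lo hi ∧ cls lo hi x = e := by
  rw [mem_bx, mem_bx]
  constructor
  · intro hx
    refine ⟨fun i => ?_, ?_⟩
    · have h1 := hx i
      have h2 := h i
      unfold slo shi at h1
      by_cases he : e i
      · simp only [he, if_true] at h1
        omega
      · simp only [he] at h1
        simp at h1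
        omega
    · funext i
      have h1 := hx i
      unfold slo shi at h1
      unfold cls
      by_cases he : e i
      · simp only [he, if_true] at h1
        simp [he, h1.1]
      · simp only [he] at h1
        simp at h1
        simp [he]
        omega
  · rintro ⟨hx, hc⟩ i
    have h1 := hx i
    have h2 := congrFun hc i
    unfold cls at h2
    unfold slo shi
    by_cases he : e i
    · rw [he] at h2
      have h3 := of_decide_eq_true h2
      simp only [he, if_true]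
      omega
    · have he' : e i = false := by simpa using he
      rw [he'] at h2
      have h3 := of_decide_eq_false h2
      simp only [he']
      simp
      omega

theorem sum_split {lo hi : Fin d → ℤ} (h : ∀ i, lo i ≤ hi i) (f : (Fin d → ℤ) → ℝ) :
    ∑ x ∈ bx lo hi, f x = ∑ e : Fin d → Bool, ∑ x ∈ bx (slo lo hi e) (shi lo hi e), f x := by
  classical
  have e1 : ∀ e : Fin d → Bool, bx (slo lo hi e) (shi lo hi e) =
      (bx lo hi).filter (fun x => cls lo hi x = e) := by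
    intro e
    ext x
    rw [mem_sub h, Finset.mem_filter]
  simp_rw [e1]
  exact (Finset.sum_fiberwise (bx lo hi) (cls lo hi) f).symm

theorem en_split {lo hi : Fin d → ℤ} (h : ∀ i, lo i ≤ hi i) (a : (Fin d → ℤ) → ℝ) :
    ∑ e : Fin d → Bool, en (bx (slo lo hi e) (shi lo hi e)) a ≤ en (bx lo hi) a := by
  unfold en
  rw [Finset.sum_comm]
  refine Finset.sum_le_sum fun i _ => ?_
  rw [sum_split (lo := lo) (hi := hi) h]
  refine Finset.sum_le_sum fun e _ => Finset.sum_le_sum fun x _ => ?_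
  by_cases hx : x + Pi.single i 1 ∈ bx (slo lo hi e) (shi lo hi e)
  · rw [if_pos hx, if_pos ((mem_sub h).1 hx).1]
  · rw [if_neg hx]
    split_ifs
    · positivity
    · exact le_rfl

theorem en_sub_le {lo hi : Fin d → ℤ} (h : ∀ i, lo i ≤ hi i) (a : (Fin d → ℤ) → ℝ)
    (e : Fin d → Bool) :
    en (bx (slo lo hi e) (shi lo hi e)) a ≤ en (bx lo hi) a :=
  (Finset.single_le_sum (f := fun e => en (bx (slo lo hi e) (shi lo hi e)) a)
    (fun e _ => en_nonneg _ _) (Finset.mem_univ e)).trans (en_split h a)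

theorem side_sub {lo hi : Fin d → ℤ} {r M k : ℕ}
    (h : ∀ i, (r : ℤ) * 2 ^ (k + 1) ≤ hi i - lo i ∧ hi i - lo i ≤ (M : ℤ) * 2 ^ (k + 1) + 1)
    (e : Fin d → Bool) (i : Fin d) :
    (r : ℤ) * 2 ^ k ≤ shi lo hi e i - slo lo hi e i ∧
      shi lo hi e i - slo lo hi e i ≤ (M : ℤ) * 2 ^ k + 1 := by
  have h1 := h i
  have e1 : (r : ℤ) * 2 ^ (k + 1) = 2 * ((r : ℤ) * 2 ^ k) := by ring
  have e2 : (M : ℤ) * 2 ^ (k + 1) = 2 * ((M : ℤ) * 2 ^ k) := by ring
  rw [e1, e2] at h1
  generalize (r : ℤ) * 2 ^ k = R at h1 ⊢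
  generalize (M : ℤ) * 2 ^ k = N at h1 ⊢
  unfold slo shi
  by_cases he : e i
  · simp only [he, if_true]
    omega
  · have he' : e i = false := by simpa using he
    simp only [he']
    simp
    omega

/-- The sum `1 + q + ... + q^(k-1)` with `q = 1/√2`. -/
noncomputable def gs (k : ℕ) : ℝ := ∑ m ∈ Finset.range k, (Real.sqrt (1/2)) ^ m

theorem gs_le (k : ℕ) : gs k ≤ 4 := by
  have h0 : 0 ≤ Real.sqrt (1/2) := Real.sqrt_nonneg _
  have h1 : Real.sqrt (1/2) ≤ 3/4 := by
    rw [Real.sqrt_le_left (by norm_num)]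
    norm_num
  have h2 : gs k ≤ ∑ m ∈ Finset.range k, (3/4 : ℝ) ^ m :=
    Finset.sum_le_sum fun m _ => pow_le_pow_left₀ h0 h1 m
  refine h2.trans ?_
  rw [geom_sum_eq (by norm_num)]
  have : (0:ℝ) < (3/4) ^ k := by positivity
  rw [div_le_iff_of_neg (by norm_num)]
  linarith

/-- Decomposition: `a = avg + v + w` on the box. -/
theorem dec_ind (hd : 3 ≤ d) (r M : ℕ) (hr : 1 ≤ r) (a : (Fin d → ℤ) → ℝ) (E : ℝ) :
    ∀ (k : ℕ) (lo hi : Fin d → ℤ),
      (∀ i, (r : ℤ) * 2 ^ k ≤ hi i - lo i ∧ hi i - lo i ≤ (M : ℤ) * 2 ^ k + 1) →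
      en (bx lo hi) a ≤ E →
      ∃ v w : (Fin d → ℤ) → ℝ, (∀ x ∈ bx lo hi, a x = avg (bx lo hi) a + v x + w x) ∧
        ∑ x ∈ bx lo hi, w x ^ 2 ≤ d / 2 * ((M : ℝ) + 1) ^ 2 * en (bx lo hi) a ∧
        ∀ x ∈ bx lo hi, |v x| ≤ Real.sqrt (2 * d * ((M : ℝ) + 1) ^ 2 / (r : ℝ) ^ d * E) * gs k := by
  intro k
  induction k with
  | zero =>
    intro lo hi h hE
    refine ⟨fun _ => 0, fun x => a x - avg (bx lo hi) a, fun x _ => by ring, ?_, fun x _ => ?_⟩
    · refine poin_var lo hi _ (fun i => ?_) a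
      have := (h i).2
      have h2 : hi i - lo i ≤ (M : ℤ) + 1 := by simpa using this
      have h3 : ((hi i - lo i : ℤ) : ℝ) ≤ (((M : ℤ) + 1 : ℤ) : ℝ) := Int.cast_le.2 h2
      simpa using h3
    · simp [gs]
  | succ k ih =>
    intro lo hi h hE
    have hle : ∀ i, lo i ≤ hi i := by
      intro i
      have := (h i).1
      have h0 : (0:ℤ) ≤ (r : ℤ) * 2 ^ (k+1) := by positivity
      omega
    have hsub : ∀ e : Fin d → Bool, ∃ v w : (Fin d → ℤ) → ℝ,
        (∀ x ∈ bx (slo lo hi e) (shi lo hi e),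
          a x = avg (bx (slo lo hi e) (shi lo hi e)) a + v x + w x) ∧
        ∑ x ∈ bx (slo lo hi e) (shi lo hi e), w x ^ 2 ≤
          d / 2 * ((M : ℝ) + 1) ^ 2 * en (bx (slo lo hi e) (shi lo hi e)) a ∧
        ∀ x ∈ bx (slo lo hi e) (shi lo hi e),
          |v x| ≤ Real.sqrt (2 * d * ((M : ℝ) + 1) ^ 2 / (r : ℝ) ^ d * E) * gs k := by
      intro e
      exact ih _ _ (side_sub h e) ((en_sub_le hle a e).trans hE)
    choose v w hv1 hw hv2 using hsub
    set B := bx lo hi with hB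
    set b : (Fin d → Bool) → Finset (Fin d → ℤ) := fun e => bx (slo lo hi e) (shi lo hi e) with hb
    refine ⟨fun x => avg (b (cls lo hi x)) a - avg B a + v (cls lo hi x) x,
      fun x => w (cls lo hi x) x, ?_, ?_, ?_⟩
    · intro x hx
      have hx' : x ∈ b (cls lo hi x) := (mem_sub hle).2 ⟨hx, rfl⟩
      have := hv1 _ x hx'
      have e1 : a x = avg (b (cls lo hi x)) a + v (cls lo hi x) x + w (cls lo hi x) x := this
      linarith
    · rw [hB, sum_split hle]
      calc ∑ e : Fin d → Bool, ∑ x ∈ bx (slo lo hi e) (shi lo hi e), w (cls lo hi x) x ^ 2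
          = ∑ e : Fin d → Bool, ∑ x ∈ bx (slo lo hi e) (shi lo hi e), w e x ^ 2 := by
            refine Finset.sum_congr rfl fun e _ => Finset.sum_congr rfl fun x hx => ?_
            rw [((mem_sub hle).1 hx).2]
        _ ≤ ∑ e : Fin d → Bool, d / 2 * ((M : ℝ) + 1) ^ 2 *
              en (bx (slo lo hi e) (shi lo hi e)) a := Finset.sum_le_sum fun e _ => hw e
        _ = d / 2 * ((M : ℝ) + 1) ^ 2 *
              ∑ e : Fin d → Bool, en (bx (slo lo hi e) (shi lo hi e)) a := by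
            rw [Finset.mul_sum]
        _ ≤ _ := mul_le_mul_of_nonneg_left (en_split hle a) (by positivity)
    · intro x hx
      have hx' : x ∈ b (cls lo hi x) := (mem_sub hle).2 ⟨hx, rfl⟩
      set e := cls lo hi x with he
      have hv := hv2 e x hx'
      set T := Real.sqrt (2 * d * ((M : ℝ) + 1) ^ 2 / (r : ℝ) ^ d * E) with hT
      have hE0 : 0 ≤ E := (en_nonneg _ _).trans hE
      have hr0 : (0:ℝ) < r := by exact_mod_cast hr
      -- the jump of the averages
      have hj : |avg (b e) a - avg B a| ≤ T * Real.sqrt (1/2) ^ k := by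
        have hbn : (b e).Nonempty := ⟨x, hx'⟩
        have hbc : (0:ℝ) < #(b e) := by exact_mod_cast hbn.card_pos
        have hbge : ((r * 2 ^ k : ℕ) : ℝ) ^ d ≤ #(b e) := by
          refine card_bx_ge _ _ _ fun i => ?_
          have := (side_sub h e i).1
          push_cast
          exact this
        -- square
        have hsq : (avg (b e) a - avg B a) ^ 2 ≤ (∑ y ∈ b e, (a y - avg B a) ^ 2) / #(b e) := by
          rw [le_div_iff₀ hbc]
          have e1 : avg (b e) a - avg B a = (∑ y ∈ b e, (a y - avg B a)) / #(b e) := by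
            rw [Finset.sum_sub_distrib]
            simp only [Finset.sum_const, nsmul_eq_mul]
            unfold avg
            field_simp
          have e2 : (∑ y ∈ b e, (a y - avg B a)) ^ 2 ≤
              #(b e) * ∑ y ∈ b e, (a y - avg B a) ^ 2 := sq_sum_le_card_mul_sum_sq
          rw [e1, div_pow]
          rw [div_mul_eq_mul_div, div_le_iff₀ (by positivity)]
          nlinarith [hbc]
        have hsub2 : ∑ y ∈ b e, (a y - avg B a) ^ 2 ≤ ∑ y ∈ B, (a y - avg B a) ^ 2 := by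
          refine Finset.sum_le_sum_of_subset_of_nonneg ?_ fun y _ _ => by positivity
          intro y hy
          exact ((mem_sub hle).1 hy).1
        have hpo : ∑ y ∈ B, (a y - avg B a) ^ 2 ≤
            d / 2 * (((M : ℝ) + 1) * 2 ^ (k+1)) ^ 2 * E := by
          refine (poin_var lo hi (((M : ℝ) + 1) * 2 ^ (k+1)) (fun i => ?_) a).trans
            (mul_le_mul_of_nonneg_left hE (by positivity))
          have h2 := (h i).2
          have h3 : ((hi i - lo i : ℤ) : ℝ) ≤ (((M : ℤ) * 2 ^ (k+1) + 1 : ℤ) : ℝ) :=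
            Int.cast_le.2 h2
          push_cast at h3
          have h4 : (1:ℝ) ≤ 2 ^ (k+1) := one_le_pow₀ (by norm_num)
          push_cast
          nlinarith
        have hfin : (avg (b e) a - avg B a) ^ 2 ≤ (T * Real.sqrt (1/2) ^ k) ^ 2 := by
          have hT2 : T ^ 2 = 2 * d * ((M : ℝ) + 1) ^ 2 / (r : ℝ) ^ d * E := by
            rw [hT, Real.sq_sqrt (by positivity)]
          have hq2 : (Real.sqrt (1/2) ^ k) ^ 2 = (1/2 : ℝ) ^ k := by
            rw [← pow_mul, mul_comm k 2, pow_mul, Real.sq_sqrt (by norm_num)]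
          rw [mul_pow, hT2, hq2]
          refine (hsq.trans ((div_le_div_of_nonneg_right (hsub2.trans hpo) hbc.le))).trans ?_
          have hrk : (0:ℝ) < ((r * 2 ^ k : ℕ) : ℝ) ^ d := by positivity
          refine (div_le_div_of_nonneg_left (by positivity) hrk hbge).trans ?_
          push_cast
          rw [mul_pow (r:ℝ), div_le_iff₀ (by positivity)]
          have hk3 : (2:ℝ) ^ (3 * k) ≤ ((2:ℝ) ^ k) ^ d := by
            rw [← pow_mul]
            exact pow_le_pow_right₀ (by norm_num) (by nlinarith)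
          have e5 : 2 * d * ((M : ℝ) + 1) ^ 2 / (r : ℝ) ^ d * E * (1/2 : ℝ) ^ k *
              ((r : ℝ) ^ d * ((2:ℝ) ^ k) ^ d) =
              2 * d * ((M : ℝ) + 1) ^ 2 * E * ((1/2 : ℝ) ^ k * ((2:ℝ) ^ k) ^ d) := by
            field_simp
          rw [e5]
          have e6 : (1/2 : ℝ) ^ k * 2 ^ (3 * k) = (2 ^ k) ^ 2 := by
            rw [one_div, inv_pow]
            field_simp
            ring
          have e7 : (2 ^ k : ℝ) ^ 2 ≤ (1/2 : ℝ) ^ k * ((2:ℝ) ^ k) ^ d := by
            rw [← e6]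
            exact mul_le_mul_of_nonneg_left hk3 (by positivity)
          calc (d:ℝ) / 2 * (((M : ℝ) + 1) * 2 ^ (k+1)) ^ 2 * E
              = 2 * d * ((M : ℝ) + 1) ^ 2 * E * (2 ^ k) ^ 2 := by ring
            _ ≤ _ := mul_le_mul_of_nonneg_left e7 (by positivity)
        exact abs_le_of_sq_le_sq hfin (by positivity)
      have hgs : gs (k+1) = gs k + Real.sqrt (1/2) ^ k := by
        unfold gs
        rw [Finset.sum_range_succ]
      rw [hgs]
      calc |avg (b e) a - avg B a + v e x| ≤ |avg (b e) a - avg B a| + |v e x| := abs_add_le _ _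
        _ ≤ T * Real.sqrt (1/2) ^ k + T * gs k := add_le_add hj hv
        _ = T * (gs k + Real.sqrt (1/2) ^ k) := by ring

/-- **Smoothing lemma.** On a box with sides between `r 2^k` and `M 2^k + 1`, `d ≥ 3`:
`a = avg + v + w`, `∑ w² ≤ (d/2)(M+1)² en`, `v² ≤ 32 d (M+1)² / r^d * en`. -/
theorem dec (hd : 3 ≤ d) (r M k : ℕ) (hr : 1 ≤ r) (lo hi : Fin d → ℤ)
    (h : ∀ i, (r : ℤ) * 2 ^ k ≤ hi i - lo i ∧ hi i - lo i ≤ (M : ℤ) * 2 ^ k + 1)
    (a : (Fin d → ℤ) → ℝ) :
    ∃ v w : (Fin d → ℤ) → ℝ, (∀ x ∈ bx lo hi, a x = avg (bx lo hi) a + v x + w x) ∧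
      ∑ x ∈ bx lo hi, w x ^ 2 ≤ d / 2 * ((M : ℝ) + 1) ^ 2 * en (bx lo hi) a ∧
      ∀ x ∈ bx lo hi, v x ^ 2 ≤ 32 * d * ((M : ℝ) + 1) ^ 2 / (r : ℝ) ^ d * en (bx lo hi) a := by
  obtain ⟨v, w, h1, h2, h3⟩ := dec_ind hd r M hr a (en (bx lo hi) a) k lo hi h le_rfl
  refine ⟨v, w, h1, h2, fun x hx => ?_⟩
  have h4 := h3 x hx
  have hE0 := en_nonneg (bx lo hi) a
  have hr0 : (0:ℝ) < r := by exact_mod_cast hr
  set T := Real.sqrt (2 * d * ((M : ℝ) + 1) ^ 2 / (r : ℝ) ^ d * en (bx lo hi) a) with hT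
  have hT2 : T ^ 2 = 2 * d * ((M : ℝ) + 1) ^ 2 / (r : ℝ) ^ d * en (bx lo hi) a := by
    rw [hT, Real.sq_sqrt (by positivity)]
  have h5 : |v x| ≤ T * 4 := h4.trans (mul_le_mul_of_nonneg_left (gs_le k) (Real.sqrt_nonneg _))
  have h6 : v x ^ 2 ≤ (T * 4) ^ 2 := by
    rw [← sq_abs (v x)]
    exact pow_le_pow_left₀ (abs_nonneg _) h5 2
  calc v x ^ 2 ≤ (T * 4) ^ 2 := h6
    _ = 32 * d * ((M : ℝ) + 1) ^ 2 / (r : ℝ) ^ d * en (bx lo hi) a := by
      rw [mul_pow, hT2]; ring

end Pool.Agent.ANF.Heat
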