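import Pool.Agent.ANF.Heat.Torus

/-!
ANF heat part (helper43), module 4: local versions on cubes of the torus: Poincare, smoothing,
cut-off, sums over disjoint cubes.
-/

open scoped BigOperators
open Finset

namespace Pool.Agent.ANF.Heat

variable {d L : ℕ}

/-- The cube of side `s` with corner `p` in the torus. -/
def cube (p : Fin d → ZMod L) (s : ℕ) : Set (Fin d → ZMod L) :=
  {x | ∀ i, (x i - p i).val < s}

open Classical in
/-- The cube as a finite set. -/
noncomputable def cubeF [NeZero L] (p : Fin d → ZMod L) (s : ℕ) : Finset (Fin d → ZMod L) :=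
  Finset.univ.filter (fun x => x ∈ cube p s)

theorem mem_cubeF [NeZero L] {p : Fin d → ZMod L} {s : ℕ} {x : Fin d → ZMod L} :
    x ∈ cubeF p s ↔ ∀ i, (x i - p i).val < s := by
  classical
  rw [cubeF, Finset.mem_filter]
  exact ⟨fun h => h.2, fun h => ⟨Finset.mem_univ _, h⟩⟩

open Classical in
/-- Energy of `a` inside a finite set `B` of sites of the torus. -/
noncomputable def enT [NeZero L] (B : Finset (Fin d → ZMod L)) (a : (Fin d → ZMod L) → ℝ) : ℝ :=
  ∑ i : Fin d, ∑ x ∈ B, if x + Pi.single i 1 ∈ B then (a (x + Pi.single i 1) - a x) ^ 2 else 0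

/-- Average over a finite set of sites of the torus. -/
noncomputable def avT (B : Finset (Fin d → ZMod L)) (a : (Fin d → ZMod L) → ℝ) : ℝ :=
  (∑ x ∈ B, a x) / #B

theorem enT_nonneg [NeZero L] (B : Finset (Fin d → ZMod L)) (a : (Fin d → ZMod L) → ℝ) :
    0 ≤ enT B a := by
  unfold enT
  refine Finset.sum_nonneg fun i _ => Finset.sum_nonneg fun x _ => ?_
  split_ifs
  · positivity
  · exact le_rfl

theorem enT_mono [NeZero L] {B B' : Finset (Fin d → ZMod L)} (h : B ⊆ B')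
    (a : (Fin d → ZMod L) → ℝ) : enT B a ≤ enT B' a := by
  classical
  unfold enT
  refine Finset.sum_le_sum fun i _ => ?_
  calc ∑ x ∈ B, (if x + Pi.single i 1 ∈ B then (a (x + Pi.single i 1) - a x) ^ 2 else 0)
      ≤ ∑ x ∈ B, (if x + Pi.single i 1 ∈ B' then (a (x + Pi.single i 1) - a x) ^ 2 else 0) := by
        refine Finset.sum_le_sum fun x _ => ?_
        by_cases hx : x + Pi.single i 1 ∈ B
        · rw [if_pos hx, if_pos (h hx)]
        · rw [if_neg hx]
          split_ifs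
          · positivity
          · exact le_rfl
    _ ≤ _ := by
        refine Finset.sum_le_sum_of_subset_of_nonneg h fun x _ _ => ?_
        split_ifs
        · positivity
        · exact le_rfl

theorem enT_univ [NeZero L] (a : (Fin d → ZMod L) → ℝ) :
    enT (Finset.univ : Finset (Fin d → ZMod L)) a = DT a := by
  unfold enT DT
  simp

/-- Sums of local energies over a family with overlap at most `M`. -/
theorem sum_enT_le [NeZero L] {ι : Type*} (S : Finset ι) (B : ι → Finset (Fin d → ZMod L))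
    (M : ℝ)
    (h : ∀ x, ∑ k ∈ S, (if x ∈ B k then (1:ℝ) else 0) ≤ M) (a : (Fin d → ZMod L) → ℝ) :
    ∑ k ∈ S, enT (B k) a ≤ M * DT a := by
  classical
  unfold enT DT
  rw [Finset.sum_comm, Finset.mul_sum]
  refine Finset.sum_le_sum fun i _ => ?_
  calc ∑ k ∈ S, ∑ x ∈ B k, (if x + Pi.single i 1 ∈ B k then (a (x + Pi.single i 1) - a x) ^ 2
          else 0)
      ≤ ∑ k ∈ S, ∑ x : Fin d → ZMod L, (if x ∈ B k then (1:ℝ) else 0) *
          (a (x + Pi.single i 1) - a x) ^ 2 := by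
        refine Finset.sum_le_sum fun k _ => ?_
        have e : ∑ x : Fin d → ZMod L, (if x ∈ B k then (1:ℝ) else 0) *
          (a (x + Pi.single i 1) - a x) ^ 2 = ∑ x ∈ B k, (a (x + Pi.single i 1) - a x) ^ 2 := by
          simp only [ite_mul, one_mul, zero_mul]
          rw [← Finset.sum_filter]
          congr 1
          ext x
          simp
        rw [e]
        refine Finset.sum_le_sum fun x _ => ?_
        split_ifs
        · exact le_rfl
        · positivity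
    _ = ∑ x : Fin d → ZMod L, (∑ k ∈ S, if x ∈ B k then (1:ℝ) else 0) *
          (a (x + Pi.single i 1) - a x) ^ 2 := by
        rw [Finset.sum_comm]
        exact Finset.sum_congr rfl fun x _ => (Finset.sum_mul _ _ _).symm
    _ ≤ ∑ x : Fin d → ZMod L, M * (a (x + Pi.single i 1) - a x) ^ 2 :=
        Finset.sum_le_sum fun x _ => mul_le_mul_of_nonneg_right (h x) (by positivity)
    _ = M * ∑ x : Fin d → ZMod L, (a (x + Pi.single i 1) - a x) ^ 2 := by rw [Finset.mul_sum]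

/-- The chart `bx 0 s → cube p s`. -/
def ch (p : Fin d → ZMod L) (y : Fin d → ℤ) : Fin d → ZMod L := p + pr L y

/-- The inverse chart. -/
def chi (p : Fin d → ZMod L) (x : Fin d → ZMod L) : Fin d → ℤ := fun i => ((x i - p i).val : ℤ)

theorem ch_chi [NeZero L] (p x : Fin d → ZMod L) : ch p (chi p x) = x := by
  funext i
  simp [ch, chi, pr]

theorem chi_ch [NeZero L] {p : Fin d → ZMod L} {s : ℕ} (hs : s ≤ L) {y : Fin d → ℤ}
    (hy : y ∈ bx (fun _ : Fin d => (0:ℤ)) (fun _ => (s:ℤ))) : chi p (ch p y) = y := by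
  funext i
  have h := mem_bx.1 hy i
  simp only [ch, chi, pr, Pi.add_apply, add_sub_cancel_left, ZMod.val_intCast]
  refine Int.emod_eq_of_lt h.1 (h.2.trans_le ?_)
  exact_mod_cast hs

theorem ch_mem [NeZero L] {p : Fin d → ZMod L} {s : ℕ} (hs : s ≤ L) {y : Fin d → ℤ}
    (hy : y ∈ bx (fun _ : Fin d => (0:ℤ)) (fun _ => (s:ℤ))) : ch p y ∈ cubeF p s := by
  rw [mem_cubeF]
  intro i
  have h1 := congrFun (chi_ch (p := p) hs hy) i
  have h2 := (mem_bx.1 hy i).2
  simp only [chi] at h1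
  have h3 : (((ch p y i - p i).val : ℕ) : ℤ) < (s : ℤ) := by rw [h1]; exact h2
  exact_mod_cast h3

theorem chi_mem [NeZero L] {p : Fin d → ZMod L} {s : ℕ} {x : Fin d → ZMod L}
    (hx : x ∈ cubeF p s) : chi p x ∈ bx (fun _ : Fin d => (0:ℤ)) (fun _ => (s:ℤ)) := by
  rw [mem_bx]
  intro i
  have h := mem_cubeF.1 hx i
  simp only [chi]
  omega

theorem sum_cube [NeZero L] (p : Fin d → ZMod L) {s : ℕ} (hs : s ≤ L)
    (f : (Fin d → ZMod L) → ℝ) :
    ∑ x ∈ cubeF p s, f x = ∑ y ∈ bx (fun _ : Fin d => (0:ℤ)) (fun _ => (s:ℤ)), f (ch p y) := by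
  refine Finset.sum_nbij' (chi p) (ch p) (fun x hx => chi_mem hx) (fun y hy => ch_mem hs hy)
    (fun x _ => ch_chi p x) (fun y hy => chi_ch hs hy) (fun x _ => by rw [ch_chi])

theorem card_cube [NeZero L] (p : Fin d → ZMod L) {s : ℕ} (hs : s ≤ L) :
    #(cubeF p s) = #(bx (fun _ : Fin d => (0:ℤ)) (fun _ => (s:ℤ))) := by
  refine Finset.card_nbij' (chi p) (ch p) (fun x hx => chi_mem hx) (fun y hy => ch_mem hs hy)
    (fun x _ => ch_chi p x) (fun y hy => chi_ch hs hy)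

theorem card_cube' [NeZero L] (p : Fin d → ZMod L) {s : ℕ} (hs : s ≤ L) :
    #(cubeF p s) = s ^ d := by
  rw [card_cube p hs, card_bx]
  simp

theorem ch_add_single [NeZero L] (p : Fin d → ZMod L) (y : Fin d → ℤ) (i : Fin d) :
    ch p (y + Pi.single i 1) = ch p y + Pi.single i 1 := by
  unfold ch
  rw [pr_add_single, add_assoc]

theorem avT_cube [NeZero L] (p : Fin d → ZMod L) {s : ℕ} (hs : s ≤ L)
    (a : (Fin d → ZMod L) → ℝ) :
    avT (cubeF p s) a = avg (bx (fun _ : Fin d => (0:ℤ)) (fun _ => (s:ℤ)))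
      (fun y => a (ch p y)) := by
  unfold avT avg
  rw [sum_cube p hs, card_cube p hs]

theorem en_le_enT [NeZero L] (p : Fin d → ZMod L) {s : ℕ} (hs : s ≤ L)
    (a : (Fin d → ZMod L) → ℝ) :
    en (bx (fun _ : Fin d => (0:ℤ)) (fun _ => (s:ℤ))) (fun y => a (ch p y)) ≤
      enT (cubeF p s) a := by
  classical
  unfold en enT
  refine Finset.sum_le_sum fun i _ => ?_
  rw [sum_cube p hs]
  refine Finset.sum_le_sum fun y _ => ?_
  by_cases h1 : y + Pi.single i 1 ∈ bx (fun _ : Fin d => (0:ℤ)) (fun _ => (s:ℤ))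
  · rw [if_pos h1, if_pos (by rw [← ch_add_single]; exact ch_mem hs h1)]
    show (a (ch p (y + Pi.single i 1)) - a (ch p y)) ^ 2 ≤ _
    rw [ch_add_single]
  · rw [if_neg h1]
    split_ifs
    · positivity
    · exact le_rfl

/-- **Poincare inequality on a cube of the torus.** -/
theorem poin_cube [NeZero L] (p : Fin d → ZMod L) {s : ℕ} (hs : s ≤ L)
    (a : (Fin d → ZMod L) → ℝ) :
    ∑ x ∈ cubeF p s, (a x - avT (cubeF p s) a) ^ 2 ≤ d / 2 * (s : ℝ) ^ 2 * enT (cubeF p s) a := by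
  rw [sum_cube p hs, avT_cube p hs]
  refine (poin_var (fun _ : Fin d => (0:ℤ)) (fun _ => (s:ℤ)) (s:ℝ) (fun i => by simp)
    (fun y => a (ch p y))).trans ?_
  exact mul_le_mul_of_nonneg_left (en_le_enT p hs a) (by positivity)

/-- **Smoothing lemma on a cube of the torus**, `1 ≤ l ≤ s ≤ L`; the constant is the average over
the cube. -/
theorem dec_cube [NeZero L] (hd : 3 ≤ d) (p : Fin d → ZMod L) {s : ℕ} (hs : s ≤ L) (l : ℝ)
    (hl : 1 ≤ l) (hls : l ≤ s) (a : (Fin d → ZMod L) → ℝ) :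
    ∃ v w : (Fin d → ZMod L) → ℝ, (∀ x, a x = avT (cubeF p s) a + v x + w x) ∧
      ∑ x ∈ cubeF p s, w x ^ 2 ≤ CH d * l ^ 2 * enT (cubeF p s) a ∧
      ∀ x ∈ cubeF p s, v x ^ 2 ≤ CH d * rho d l * enT (cubeF p s) a := by
  set r := ⌊l⌋₊ with hr
  have h0 : 0 ≤ l := by linarith
  have hr1 : 1 ≤ r := Nat.le_floor (by simpa using hl)
  have hrl : (r:ℝ) ≤ l := Nat.floor_le h0
  have hrs : r ≤ s := by
    have : (r:ℝ) ≤ s := hrl.trans hls
    exact_mod_cast this
  have hl2 : l / 2 ≤ r := by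
    have h1 : l < r + 1 := Nat.lt_floor_add_one l
    have h2 : (1:ℝ) ≤ r := by exact_mod_cast hr1
    linarith
  have hr0 : (0:ℝ) < r := by exact_mod_cast hr1
  have hrr1 : (1:ℝ) ≤ r := by exact_mod_cast hr1
  have h2d : (1:ℝ) ≤ 2 ^ d := one_le_pow₀ (by norm_num)
  -- the number of scales
  obtain ⟨k, hk1, hk2⟩ : ∃ k : ℕ, r * 2 ^ k ≤ s ∧ s < r * 2 ^ (k + 1) := by
    classical
    have hex : ∃ k : ℕ, s < r * 2 ^ (k + 1) := by
      refine ⟨s, ?_⟩
      have h1 : s < 2 ^ s := Nat.lt_two_pow_self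
      have h2 : 2 ^ s ≤ 2 ^ (s + 1) := Nat.pow_le_pow_right (by norm_num) (by omega)
      nlinarith
    refine ⟨Nat.find hex, ?_, Nat.find_spec hex⟩
    rcases Nat.eq_zero_or_pos (Nat.find hex) with h0 | h0
    · rw [h0]; simpa using hrs
    · have := Nat.find_min hex (m := Nat.find hex - 1) (by omega)
      have e : Nat.find hex - 1 + 1 = Nat.find hex := by omega
      rw [e] at this
      omega
  have hbox : ∀ i : Fin d, (r : ℤ) * 2 ^ k ≤ (fun _ : Fin d => (s:ℤ)) i - (fun _ => (0:ℤ)) i ∧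
      (fun _ : Fin d => (s:ℤ)) i - (fun _ => (0:ℤ)) i ≤ ((2 * r : ℕ) : ℤ) * 2 ^ k + 1 := by
    intro i
    constructor
    · have : ((r * 2 ^ k : ℕ) : ℤ) ≤ (s : ℤ) := by exact_mod_cast hk1
      push_cast at this
      simpa using this
    · have h3 : s ≤ 2 * r * 2 ^ k := by
        have : r * 2 ^ (k+1) = 2 * r * 2 ^ k := by ring
        omega
      have : (s : ℤ) ≤ ((2 * r * 2 ^ k : ℕ) : ℤ) := by exact_mod_cast h3
      push_cast at this
      simp only [sub_zero]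
      push_cast
      linarith
  obtain ⟨v, w, h1, h2, h3⟩ := dec hd r (2 * r) k hr1 _ _ hbox (fun y => a (ch p y))
  have hM : (((2 * r : ℕ) : ℝ) + 1) ^ 2 ≤ 9 * (r:ℝ) ^ 2 := by
    push_cast
    nlinarith
  set EE := en (bx (fun _ : Fin d => (0:ℤ)) (fun _ => (s:ℤ))) (fun y => a (ch p y)) with hEE
  have he0 : 0 ≤ EE := en_nonneg _ _
  have heT : EE ≤ enT (cubeF p s) a := en_le_enT p hs a
  have hC1 : (d:ℝ) / 2 * (((2 * r : ℕ) : ℝ) + 1) ^ 2 ≤ CH d * l ^ 2 := by
    have h5 : (r:ℝ) ^ 2 ≤ l ^ 2 := pow_le_pow_left₀ hr0.le hrl 2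
    have hd0 : (0:ℝ) ≤ d := by positivity
    calc (d:ℝ) / 2 * (((2 * r : ℕ) : ℝ) + 1) ^ 2 ≤ (d:ℝ) / 2 * (9 * l ^ 2) := by
          refine mul_le_mul_of_nonneg_left (hM.trans (by linarith)) (by positivity)
      _ ≤ 288 * d * 1 * l ^ 2 := by nlinarith [mul_nonneg hd0 (sq_nonneg l)]
      _ ≤ 288 * d * 2 ^ d * l ^ 2 := by
          refine mul_le_mul_of_nonneg_right ?_ (by positivity)
          exact mul_le_mul_of_nonneg_left h2d (by positivity)
      _ = CH d * l ^ 2 := by unfold CH; ring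
  have hC2 : 32 * (d:ℝ) * (((2 * r : ℕ) : ℝ) + 1) ^ 2 / (r:ℝ) ^ d ≤ CH d * rho d l := by
    have hkey : (r:ℝ) ^ 2 / (r:ℝ) ^ d ≤ 2 ^ d * (l ^ 2 / l ^ d) := by
      obtain ⟨n, rfl⟩ : ∃ n, d = n + 2 := ⟨d - 2, by omega⟩
      have e4 : (r:ℝ) ^ 2 / (r:ℝ) ^ (n+2) = 1 / (r:ℝ) ^ n := by
        rw [pow_add]; field_simp
      have e5 : l ^ 2 / l ^ (n+2) = 1 / l ^ n := by
        have : l ≠ 0 := by positivity
        rw [pow_add]; field_simp
      rw [e4, e5]
      have h6 : (l / 2) ^ n ≤ (r:ℝ) ^ n := pow_le_pow_left₀ (by linarith) hl2 n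
      have h7 : 0 < (l/2) ^ n := by positivity
      calc 1 / (r:ℝ) ^ n ≤ 1 / (l/2) ^ n := one_div_le_one_div_of_le h7 h6
        _ = 2 ^ n * (1 / l ^ n) := by rw [div_pow]; field_simp
        _ ≤ 2 ^ (n+2) * (1 / l ^ n) := by
            refine mul_le_mul_of_nonneg_right ?_ (by positivity)
            exact pow_le_pow_right₀ (by norm_num) (by omega)
    calc 32 * (d:ℝ) * (((2 * r : ℕ) : ℝ) + 1) ^ 2 / (r:ℝ) ^ d
        ≤ 32 * (d:ℝ) * (9 * (r:ℝ) ^ 2) / (r:ℝ) ^ d :=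
          div_le_div_of_nonneg_right (mul_le_mul_of_nonneg_left hM (by positivity))
            (by positivity)
      _ = 288 * d * ((r:ℝ) ^ 2 / (r:ℝ) ^ d) := by ring
      _ ≤ 288 * d * (2 ^ d * (l ^ 2 / l ^ d)) := mul_le_mul_of_nonneg_left hkey (by positivity)
      _ = CH d * rho d l := by unfold CH rho; ring
  have hC0 : 0 ≤ CH d := by unfold CH; positivity
  have hrho0 : 0 ≤ rho d l := by unfold rho; positivity
  refine ⟨fun x => v (chi p x), fun x => a x - avT (cubeF p s) a - v (chi p x),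
    fun x => by ring, ?_, fun x hx => ?_⟩
  · rw [sum_cube p hs]
    have e : ∑ y ∈ bx (fun _ : Fin d => (0:ℤ)) (fun _ => (s:ℤ)),
        (a (ch p y) - avT (cubeF p s) a - v (chi p (ch p y))) ^ 2 =
        ∑ y ∈ bx (fun _ : Fin d => (0:ℤ)) (fun _ => (s:ℤ)), w y ^ 2 := by
      refine Finset.sum_congr rfl fun y hy => ?_
      rw [chi_ch hs hy, avT_cube p hs]
      have := h1 y hy
      rw [this]
      ring
    rw [e]
    refine h2.trans ?_
    exact mul_le_mul hC1 heT he0 (by positivity)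
  · refine (h3 (chi p x) (chi_mem hx)).trans ?_
    exact mul_le_mul hC2 heT he0 (by positivity)

/-- **Cut-off lemma.** `ψ` vanishes at `x` and at `x + e_i` unless both are in `B`,
`|ψ| ≤ 1`, `|∇ψ| ≤ δ`: then `DT (ψ f) ≤ 2 enT B f + 2 d δ² ∑_B f²`. -/
theorem cutoff [NeZero L] (B : Finset (Fin d → ZMod L)) (ψ f : (Fin d → ZMod L) → ℝ) (δ : ℝ)
    (h1 : ∀ x, |ψ x| ≤ 1) (h2 : ∀ x i, |ψ (x + Pi.single i 1) - ψ x| ≤ δ)
    (h3 : ∀ x i, ¬ (x ∈ B ∧ x + Pi.single i 1 ∈ B) → ψ x = 0 ∧ ψ (x + Pi.single i 1) = 0) :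
    DT (fun x => ψ x * f x) ≤ 2 * enT B f + 2 * d * δ ^ 2 * ∑ x ∈ B, f x ^ 2 := by
  classical
  have key : ∀ (i : Fin d) (x : Fin d → ZMod L),
      (ψ (x + Pi.single i 1) * f (x + Pi.single i 1) - ψ x * f x) ^ 2 ≤
      (if x ∈ B then (2 * (if x + Pi.single i 1 ∈ B then (f (x + Pi.single i 1) - f x) ^ 2
        else 0) + 2 * δ ^ 2 * f x ^ 2) else 0) := by
    intro i x
    by_cases hx : x ∈ B ∧ x + Pi.single i 1 ∈ B
    · rw [if_pos hx.1, if_pos hx.2]
      have e : ψ (x + Pi.single i 1) * f (x + Pi.single i 1) - ψ x * f x =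
          ψ (x + Pi.single i 1) * (f (x + Pi.single i 1) - f x) +
            (ψ (x + Pi.single i 1) - ψ x) * f x := by ring
      rw [e]
      have h4 : (ψ (x + Pi.single i 1)) ^ 2 ≤ 1 := by
        rw [← sq_abs]
        have := h1 (x + Pi.single i 1)
        nlinarith [abs_nonneg (ψ (x + Pi.single i 1))]
      have h5 : (ψ (x + Pi.single i 1) - ψ x) ^ 2 ≤ δ ^ 2 := by
        rw [← sq_abs]
        exact pow_le_pow_left₀ (abs_nonneg _) (h2 x i) 2
      have h6 : (ψ (x + Pi.single i 1) * (f (x + Pi.single i 1) - f x)) ^ 2 ≤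
          (f (x + Pi.single i 1) - f x) ^ 2 := by
        rw [mul_pow]
        nlinarith [sq_nonneg (f (x + Pi.single i 1) - f x)]
      have h7 : ((ψ (x + Pi.single i 1) - ψ x) * f x) ^ 2 ≤ δ ^ 2 * f x ^ 2 := by
        rw [mul_pow]
        exact mul_le_mul_of_nonneg_right h5 (sq_nonneg _)
      nlinarith [sq_nonneg (ψ (x + Pi.single i 1) * (f (x + Pi.single i 1) - f x) -
        (ψ (x + Pi.single i 1) - ψ x) * f x)]
    · obtain ⟨h4, h5⟩ := h3 x i hx
      rw [h4, h5]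
      have : (0 * f (x + Pi.single i 1) - 0 * f x) ^ 2 = 0 := by ring
      rw [this]
      split_ifs <;> positivity
  calc DT (fun x => ψ x * f x)
      ≤ ∑ i : Fin d, ∑ x : Fin d → ZMod L, (if x ∈ B then (2 * (if x + Pi.single i 1 ∈ B then
          (f (x + Pi.single i 1) - f x) ^ 2 else 0) + 2 * δ ^ 2 * f x ^ 2) else 0) :=
        Finset.sum_le_sum fun i _ => Finset.sum_le_sum fun x _ => key i x
    _ = ∑ i : Fin d, ∑ x ∈ B, (2 * (if x + Pi.single i 1 ∈ B then
          (f (x + Pi.single i 1) - f x) ^ 2 else 0) + 2 * δ ^ 2 * f x ^ 2) := by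
        refine Finset.sum_congr rfl fun i _ => ?_
        rw [← Finset.sum_filter]
        congr 1
        ext x
        simp
    _ = 2 * enT B f + 2 * d * δ ^ 2 * ∑ x ∈ B, f x ^ 2 := by
        unfold enT
        simp_rw [Finset.sum_add_distrib, ← Finset.mul_sum]
        simp only [Finset.sum_const, Finset.card_univ, Fintype.card_fin, nsmul_eq_mul]
        ring

/-- **Cut-off and Poincare on a cube**: `DT (ψ (a - mean)) ≤ (2 + d² δ² s²) enT (cube) a`. -/
theorem cutoff_cube [NeZero L] (p : Fin d → ZMod L) {s : ℕ} (hs : s ≤ L)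
    (ψ a : (Fin d → ZMod L) → ℝ) (δ : ℝ)
    (h1 : ∀ x, |ψ x| ≤ 1) (h2 : ∀ x i, |ψ (x + Pi.single i 1) - ψ x| ≤ δ)
    (h3 : ∀ x i, ¬ (x ∈ cubeF p s ∧ x + Pi.single i 1 ∈ cubeF p s) →
      ψ x = 0 ∧ ψ (x + Pi.single i 1) = 0) :
    DT (fun x => ψ x * (a x - avT (cubeF p s) a)) ≤
      (2 + d ^ 2 * δ ^ 2 * (s : ℝ) ^ 2) * enT (cubeF p s) a := by
  have h4 := cutoff (cubeF p s) ψ (fun x => a x - avT (cubeF p s) a) δ h1 h2 h3
  have e : enT (cubeF p s) (fun x => a x - avT (cubeF p s) a) = enT (cubeF p s) a := by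
    unfold enT
    simp
  rw [e] at h4
  have h5 := poin_cube p hs a
  have h6 := mul_le_mul_of_nonneg_left h5 (by positivity : (0:ℝ) ≤ 2 * d * δ ^ 2)
  calc _ ≤ _ := h4
    _ ≤ 2 * enT (cubeF p s) a + 2 * d * δ ^ 2 * (d / 2 * (s : ℝ) ^ 2 * enT (cubeF p s) a) := by
        linarith
    _ = _ := by ring

end Pool.Agent.ANF.Heat
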