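import Mathlib

/-!
ANF heat part (helper43), module 1: boxes of the lattice, nearest neighbour energy,
and the Poincare inequality on product boxes.
-/

open scoped BigOperators
open Finset

namespace Pool.Agent.ANF.Heat

/-- The product box with corners `lo` (included) and `hi` (excluded). -/
noncomputable def bx {d : ℕ} (lo hi : Fin d → ℤ) : Finset (Fin d → ℤ) :=
  Fintype.piFinset (fun i => Finset.Ico (lo i) (hi i))

/-- The nearest neighbour Dirichlet energy of `a` inside a finite set `B` (edges with both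
endpoints in `B`). -/
noncomputable def en {d : ℕ} (B : Finset (Fin d → ℤ)) (a : (Fin d → ℤ) → ℝ) : ℝ :=
  ∑ i : Fin d, ∑ x ∈ B, if x + Pi.single i 1 ∈ B then (a (x + Pi.single i 1) - a x) ^ 2 else 0

variable {d : ℕ}

theorem mem_bx {lo hi : Fin d → ℤ} {x : Fin d → ℤ} :
    x ∈ bx lo hi ↔ ∀ i, lo i ≤ x i ∧ x i < hi i := by
  simp [bx, Fintype.mem_piFinset]

theorem en_nonneg (B : Finset (Fin d → ℤ)) (a : (Fin d → ℤ) → ℝ) : 0 ≤ en B a := by
  unfold en
  refine Finset.sum_nonneg fun i _ => Finset.sum_nonneg fun x _ => ?_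
  split_ifs
  · positivity
  · exact le_rfl

/-- One dimensional estimate: the square of a difference is at most the length times the energy. -/
theorem line_sq (b : ℤ → ℝ) (l h : ℤ) (s t : ℤ) (hs : l ≤ s ∧ s < h) (ht : l ≤ t ∧ t < h) :
    (b s - b t) ^ 2 ≤ ((h - l : ℤ) : ℝ) *
      ∑ u ∈ Finset.Ico l h, if u + 1 < h then (b (u + 1) - b u) ^ 2 else 0 := by
  -- it is enough to treat s ≤ t
  have key : ∀ s t : ℤ, l ≤ s → s ≤ t → t < h →
      (b s - b t) ^ 2 ≤ ((h - l : ℤ) : ℝ) *
        ∑ u ∈ Finset.Ico l h, if u + 1 < h then (b (u + 1) - b u) ^ 2 else 0 := by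
    intro s t hs hst ht
    have tele : ∀ t : ℤ, s ≤ t → b t - b s = ∑ u ∈ Finset.Ico s t, (b (u + 1) - b u) := by
      intro t ht
      induction t, ht using Int.leInduction with
      | base => simp
      | succ n hn ih =>
        have : Finset.Ico s (n + 1) = insert n (Finset.Ico s n) := by
          ext u; simp only [Finset.mem_Ico, Finset.mem_insert]; omega
        rw [this, Finset.sum_insert (by simp), ← ih]
        ring
    have h1 : (b s - b t) ^ 2 = (∑ u ∈ Finset.Ico s t, (b (u + 1) - b u)) ^ 2 := by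
      rw [← tele t hst]; ring
    rw [h1]
    have h2 : (∑ u ∈ Finset.Ico s t, (b (u + 1) - b u)) ^ 2 ≤
        (#(Finset.Ico s t) : ℝ) * ∑ u ∈ Finset.Ico s t, (b (u + 1) - b u) ^ 2 :=
      sq_sum_le_card_mul_sum_sq
    refine h2.trans ?_
    have hcard : (#(Finset.Ico s t) : ℝ) ≤ ((h - l : ℤ) : ℝ) := by
      rw [Int.card_Ico]
      rw [← Int.cast_natCast (R := ℝ) ((t - s).toNat)]
      have h3 : ((t - s).toNat : ℤ) ≤ h - l := by omega
      exact Int.cast_le.2 h3
    have hsum : ∑ u ∈ Finset.Ico s t, (b (u + 1) - b u) ^ 2 ≤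
        ∑ u ∈ Finset.Ico l h, if u + 1 < h then (b (u + 1) - b u) ^ 2 else 0 := by
      have e1 : ∑ u ∈ Finset.Ico s t, (b (u + 1) - b u) ^ 2 =
          ∑ u ∈ Finset.Ico s t, if u + 1 < h then (b (u + 1) - b u) ^ 2 else 0 := by
        refine Finset.sum_congr rfl fun u hu => ?_
        rw [if_pos]
        simp only [Finset.mem_Ico] at hu
        omega
      rw [e1]
      refine Finset.sum_le_sum_of_subset_of_nonneg ?_ ?_
      · intro u hu
        simp only [Finset.mem_Ico] at hu ⊢
        omega
      · intro u _ _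
        split_ifs
        · positivity
        · exact le_rfl
    have h0 : (0:ℝ) ≤ ∑ u ∈ Finset.Ico s t, (b (u + 1) - b u) ^ 2 :=
      Finset.sum_nonneg fun u _ => by positivity
    have hl : (0:ℝ) ≤ ((h - l : ℤ) : ℝ) := by
      have : (0:ℤ) ≤ h - l := by omega
      exact_mod_cast this
    calc (#(Finset.Ico s t) : ℝ) * ∑ u ∈ Finset.Ico s t, (b (u + 1) - b u) ^ 2
        ≤ ((h - l : ℤ) : ℝ) * ∑ u ∈ Finset.Ico s t, (b (u + 1) - b u) ^ 2 :=
          mul_le_mul_of_nonneg_right hcard h0
      _ ≤ _ := mul_le_mul_of_nonneg_left hsum hl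
  rcases le_total s t with hst | hst
  · exact key s t hs.1 hst ht.2
  · have := key t s ht.1 hst hs.2
    have e : (b s - b t) ^ 2 = (b t - b s) ^ 2 := by ring
    rw [e]; exact this

/-- Exchange of a coordinate. -/
theorem sum_update (lo hi : Fin d → ℤ) (k : Fin d) (g : (Fin d → ℤ) → ℤ → ℝ) :
    ∑ z ∈ bx lo hi, ∑ t ∈ Finset.Ico (lo k) (hi k), g (Function.update z k t) (z k) =
      ∑ z ∈ bx lo hi, ∑ t ∈ Finset.Ico (lo k) (hi k), g z t := by
  rw [← Finset.sum_product', ← Finset.sum_product']
  refine Finset.sum_nbij' (fun p => (Function.update p.1 k p.2, p.1 k))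
    (fun p => (Function.update p.1 k p.2, p.1 k)) ?_ ?_ ?_ ?_ ?_
  · rintro ⟨z, t⟩ hp
    simp only [Finset.mem_product, mem_bx, Finset.mem_Ico] at hp ⊢
    refine ⟨fun i => ?_, hp.1 k⟩
    by_cases hi : i = k
    · subst hi; simpa using hp.2
    · simpa [Function.update_of_ne hi] using hp.1 i
  · rintro ⟨z, t⟩ hp
    simp only [Finset.mem_product, mem_bx, Finset.mem_Ico] at hp ⊢
    refine ⟨fun i => ?_, hp.1 k⟩
    by_cases hi : i = k
    · subst hi; simpa using hp.2
    · simpa [Function.update_of_ne hi] using hp.1 i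
  · rintro ⟨z, t⟩ hp
    simp
  · rintro ⟨z, t⟩ hp
    simp
  · rintro ⟨z, t⟩ hp
    simp

/-- The hybrid point: coordinates below `k` from `y`, the others from `x`. -/
def hyb (k : ℕ) (x y : Fin d → ℤ) : Fin d → ℤ := fun i => if (i : ℕ) < k then y i else x i

theorem sum_hyb (lo hi : Fin d → ℤ) (k : ℕ) (g : (Fin d → ℤ) → (Fin d → ℤ) → ℝ) :
    ∑ x ∈ bx lo hi, ∑ y ∈ bx lo hi, g (hyb k x y) (hyb k y x) =
      ∑ x ∈ bx lo hi, ∑ y ∈ bx lo hi, g x y := by
  rw [← Finset.sum_product', ← Finset.sum_product']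
  have hm : ∀ p : (Fin d → ℤ) × (Fin d → ℤ), p ∈ bx lo hi ×ˢ bx lo hi →
      (hyb k p.1 p.2, hyb k p.2 p.1) ∈ bx lo hi ×ˢ bx lo hi := by
    rintro ⟨x, y⟩ hp
    simp only [Finset.mem_product, mem_bx] at hp ⊢
    refine ⟨fun i => ?_, fun i => ?_⟩
    · unfold hyb; split_ifs
      · exact hp.2 i
      · exact hp.1 i
    · unfold hyb; split_ifs
      · exact hp.1 i
      · exact hp.2 i
  have hi' : ∀ x y : Fin d → ℤ, hyb k (hyb k x y) (hyb k y x) = x := by
    intro x y
    funext i
    unfold hyb
    by_cases h : (i : ℕ) < k <;> simp [h]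
  refine Finset.sum_nbij' (fun p => (hyb k p.1 p.2, hyb k p.2 p.1))
    (fun p => (hyb k p.1 p.2, hyb k p.2 p.1)) hm hm ?_ ?_ ?_
  · rintro ⟨x, y⟩ _
    simp [hi']
  · rintro ⟨x, y⟩ _
    simp [hi']
  · rintro ⟨x, y⟩ _
    rfl

theorem hyb_succ (k : Fin d) (x y : Fin d → ℤ) :
    hyb ((k : ℕ) + 1) x y = Function.update (hyb k x y) k (hyb k y x k) := by
  funext i
  by_cases hi : i = k
  · subst hi; simp [hyb]
  · rw [Function.update_of_ne hi]
    unfold hyb
    have : ((i : ℕ) < (k : ℕ) + 1) ↔ ((i : ℕ) < k) := by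
      constructor
      · intro h
        have hne : (i : ℕ) ≠ k := fun e => hi (Fin.ext e)
        omega
      · omega
    simp only [this]

theorem hyb_zero (x y : Fin d → ℤ) : hyb 0 x y = x := by
  funext i; simp [hyb]

theorem hyb_last (x y : Fin d → ℤ) : hyb d x y = y := by
  funext i; simp [hyb]

/-- Pair form of the Poincare inequality on a product box with all sides at most `s`. -/
theorem poin_pair (lo hi : Fin d → ℤ) (s : ℝ) (hs : ∀ i, ((hi i - lo i : ℤ) : ℝ) ≤ s)
    (a : (Fin d → ℤ) → ℝ) :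
    ∑ x ∈ bx lo hi, ∑ y ∈ bx lo hi, (a x - a y) ^ 2 ≤
      d * s ^ 2 * #(bx lo hi) * en (bx lo hi) a := by
  classical
  -- the energy in direction k
  set Ek : Fin d → ℝ := fun k => ∑ x ∈ bx lo hi,
    if x + Pi.single k 1 ∈ bx lo hi then (a (x + Pi.single k 1) - a x) ^ 2 else 0 with hEk
  have hEk0 : ∀ k, 0 ≤ Ek k := fun k => Finset.sum_nonneg fun x _ => by
    split_ifs
    · positivity
    · exact le_rfl
  have hen : en (bx lo hi) a = ∑ k, Ek k := rfl
  -- step 1: telescoping
  have st1 : ∀ x y : Fin d → ℤ, (a x - a y) ^ 2 ≤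
      d * ∑ k : Fin d, (a (hyb k x y) - a (Function.update (hyb k x y) k (hyb k y x k))) ^ 2 := by
    intro x y
    have t1 : ∑ k : Fin d, (a (hyb k x y) - a (Function.update (hyb k x y) k (hyb k y x k))) =
        a x - a y := by
      have t2 : ∑ k : Fin d, (a (hyb k x y) - a (Function.update (hyb k x y) k (hyb k y x k))) =
          ∑ k : Fin d, (a (hyb (k:ℕ) x y) - a (hyb ((k:ℕ)+1) x y)) :=
        Finset.sum_congr rfl fun k _ => by rw [hyb_succ]
      rw [t2, Fin.sum_univ_eq_sum_range (fun k => a (hyb k x y) - a (hyb (k+1) x y)) d,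
        Finset.sum_range_sub', hyb_zero, hyb_last]
    rw [← t1]
    have := sq_sum_le_card_mul_sum_sq (s := (Finset.univ : Finset (Fin d)))
      (f := fun k => a (hyb k x y) - a (Function.update (hyb k x y) k (hyb k y x k)))
    simpa using this
  -- step 2: one direction
  have st2 : ∀ k : Fin d, ∑ x ∈ bx lo hi, ∑ y ∈ bx lo hi,
      (a (hyb k x y) - a (Function.update (hyb k x y) k (hyb k y x k))) ^ 2 ≤
        s ^ 2 * #(bx lo hi) * Ek k := by
    intro k
    rw [sum_hyb lo hi k (fun z z' => (a z - a (Function.update z k (z' k))) ^ 2)]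
    -- along lines
    have ln : ∀ z ∈ bx lo hi, ∀ z' ∈ bx lo hi, (a z - a (Function.update z k (z' k))) ^ 2 ≤
        s * ∑ t ∈ Finset.Ico (lo k) (hi k),
          if t + 1 < hi k then (a (Function.update z k (t + 1)) - a (Function.update z k t)) ^ 2
            else 0 := by
      intro z hz z' hz'
      have h1 := line_sq (fun t => a (Function.update z k t)) (lo k) (hi k) (z k) (z' k)
        (mem_bx.1 hz k) (mem_bx.1 hz' k)
      simp only [Function.update_eq_self] at h1
      refine h1.trans (mul_le_mul_of_nonneg_right (hs k) ?_)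
      exact Finset.sum_nonneg fun t _ => by
        split_ifs
        · positivity
        · exact le_rfl
    have hS : ∑ z ∈ bx lo hi, ∑ t ∈ Finset.Ico (lo k) (hi k),
        (if t + 1 < hi k then (a (Function.update z k (t + 1)) - a (Function.update z k t)) ^ 2
            else 0) = ((hi k - lo k : ℤ) : ℝ) * Ek k ∨ bx lo hi = ∅ := by
      rcases Finset.eq_empty_or_nonempty (bx lo hi) with he | ⟨z0, hz0⟩
      · right; exact he
      left
      have hpos : lo k < hi k := by
        have := mem_bx.1 hz0 k; omega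
      have e1 := sum_update lo hi k (fun z _ =>
        if z k + 1 < hi k then (a (Function.update z k (z k + 1)) - a z) ^ 2 else 0)
      simp only [Function.update_self, Function.update_idem] at e1
      rw [e1]
      simp only [Finset.sum_const, nsmul_eq_mul]
      rw [← Finset.mul_sum]
      have hc : ((#(Finset.Ico (lo k) (hi k)) : ℕ) : ℝ) = ((hi k - lo k : ℤ) : ℝ) := by
        rw [Int.card_Ico]
        rw [← Int.cast_natCast (R := ℝ) ((hi k - lo k).toNat)]
        have h3 : ((hi k - lo k).toNat : ℤ) = hi k - lo k := by omega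
        rw [h3]
      rw [hc]
      congr 1
      refine Finset.sum_congr rfl fun z hz => ?_
      have hup : Function.update z k (z k + 1) = z + Pi.single k 1 := by
        funext i
        by_cases hi : i = k
        · subst hi; simp
        · simp [hi]
      have hmem : (z + Pi.single k 1 ∈ bx lo hi) ↔ z k + 1 < hi k := by
        rw [mem_bx]
        constructor
        · intro h
          have := (h k).2
          simpa using this
        · intro h i
          have hz1 := mem_bx.1 hz i
          by_cases hik : i = k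
          · subst hik
            simp only [Pi.add_apply, Pi.single_eq_same]
            omega
          · simp only [Pi.add_apply, Pi.single_eq_of_ne hik]
            omega
      simp only [hup, hmem]
    rcases hS with hS | he
    · calc ∑ z ∈ bx lo hi, ∑ z' ∈ bx lo hi, (a z - a (Function.update z k (z' k))) ^ 2
          ≤ ∑ z ∈ bx lo hi, ∑ z' ∈ bx lo hi, s * ∑ t ∈ Finset.Ico (lo k) (hi k),
          (if t + 1 < hi k then (a (Function.update z k (t + 1)) - a (Function.update z k t)) ^ 2
            else 0) :=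
            Finset.sum_le_sum fun z hz => Finset.sum_le_sum fun z' hz' => ln z hz z' hz'
        _ = #(bx lo hi) * (s * (((hi k - lo k : ℤ) : ℝ) * Ek k)) := by
            rw [← hS]
            simp only [Finset.sum_const, nsmul_eq_mul]
            rw [← Finset.mul_sum, ← Finset.mul_sum]
        _ ≤ s ^ 2 * #(bx lo hi) * Ek k := by
            rcases Finset.eq_empty_or_nonempty (bx lo hi) with he | ⟨z0, hz0⟩
            · simp [he, hEk]
            have hpos : lo k < hi k := by
              have := mem_bx.1 hz0 k; omega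
            have h0 : (0:ℝ) ≤ ((hi k - lo k : ℤ) : ℝ) := by
              have : (0:ℤ) ≤ hi k - lo k := by omega
              exact_mod_cast this
            have hs0 : 0 ≤ s := h0.trans (hs k)
            have : s * (((hi k - lo k : ℤ) : ℝ) * Ek k) ≤ s * (s * Ek k) :=
              mul_le_mul_of_nonneg_left (mul_le_mul_of_nonneg_right (hs k) (hEk0 k)) hs0
            have hc : (0:ℝ) ≤ #(bx lo hi) := by positivity
            nlinarith
    · simp [he, hEk]
  calc ∑ x ∈ bx lo hi, ∑ y ∈ bx lo hi, (a x - a y) ^ 2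
      ≤ ∑ x ∈ bx lo hi, ∑ y ∈ bx lo hi, d * ∑ k : Fin d,
          (a (hyb k x y) - a (Function.update (hyb k x y) k (hyb k y x k))) ^ 2 :=
        Finset.sum_le_sum fun x _ => Finset.sum_le_sum fun y _ => st1 x y
    _ = d * ∑ k : Fin d, ∑ x ∈ bx lo hi, ∑ y ∈ bx lo hi,
          (a (hyb k x y) - a (Function.update (hyb k x y) k (hyb k y x k))) ^ 2 := by
        simp_rw [← Finset.mul_sum]
        congr 1
        have e : ∀ x ∈ bx lo hi, (∑ y ∈ bx lo hi, ∑ k : Fin d,
          (a (hyb k x y) - a (Function.update (hyb k x y) k (hyb k y x k))) ^ 2) =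
          ∑ k : Fin d, ∑ y ∈ bx lo hi,
          (a (hyb k x y) - a (Function.update (hyb k x y) k (hyb k y x k))) ^ 2 :=
          fun x _ => Finset.sum_comm
        rw [Finset.sum_congr rfl e, Finset.sum_comm]
    _ ≤ d * ∑ k : Fin d, s ^ 2 * #(bx lo hi) * Ek k :=
        mul_le_mul_of_nonneg_left (Finset.sum_le_sum fun k _ => st2 k) (by positivity)
    _ = d * s ^ 2 * #(bx lo hi) * en (bx lo hi) a := by
        rw [← Finset.mul_sum, hen]; ring

end Pool.Agent.ANF.Heat
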